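import Pool.Agent.Run7.h238.P21.PC

/-!
# The number of pairs of vectors with a given inner product and a common line modulo seven
-/

set_option autoImplicit false

namespace Run7.h238.P21

open Finset
open Pool.Agent.Z700 (hh fac)
open Pool.Agent.N969.P15 (V3 tw)
open Pool.Agent.Run7.h843.P21 (ip vec cp cp7 loc loc7 lrest S_PC S_CP7 I7)
open Run7.h238.P (chi)

theorem prime7 : Prime (7 : ℤ) := by
  have := Nat.prime_iff_prime_int.1 (by norm_num : Nat.Prime 7)
  exact_mod_cast this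

/-- `c` with `c n1 = b` modulo seven -/
theorem exists_c {n1 b : ℤ} (h : ¬ (7 : ℤ) ∣ n1) : ∃ c b' : ℤ, b = 7 * b' + c * n1 := by
  obtain ⟨u, v, huv⟩ : IsCoprime n1 (7 : ℤ) := ((Prime.coprime_iff_not_dvd prime7).2 h).symm
  exact ⟨b * u, b * v, by linear_combination (-b) * huv⟩

theorem dvd_n2 {n1 n2 b c b' : ℤ} (h1 : ¬ (7 : ℤ) ∣ n1) (hc : b = 7 * b' + c * n1)
    (hD : (7 : ℤ) ∣ n1 * n2 - b ^ 2) : (7 : ℤ) ∣ n2 - b * c := by
  have h2 : (7 : ℤ) ∣ n1 * (n2 - b * c) := by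
    obtain ⟨t, ht⟩ := hD
    refine ⟨t + b * b', ?_⟩
    linear_combination ht + b * hc
  exact (prime7.dvd_or_dvd h2).resolve_left h1

theorem exists_w' {v w : V3} {n1 n2 b c b' : ℤ} (h1 : ¬ (7 : ℤ) ∣ n1) (hb : ¬ (7 : ℤ) ∣ b)
    (hc : b = 7 * b' + c * n1) (hD : (7 : ℤ) ∣ n1 * n2 - b ^ 2)
    (h : ∀ i, (7 : ℤ) ∣ n2 * v i - b * w i) :
    ∃ w' : V3, w = (7 : ℤ) • w' + c • v := by
  obtain ⟨s, hs⟩ := dvd_n2 h1 hc hD
  have h2 : ∀ i, ∃ t : ℤ, w i - c * v i = 7 * t := by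
    intro i
    obtain ⟨r, hr⟩ := h i
    have h3 : (7 : ℤ) ∣ b * (w i - c * v i) := by
      refine ⟨s * v i - r, ?_⟩
      linear_combination (v i) * hs - hr
    exact (prime7.dvd_or_dvd h3).resolve_left hb
  choose t ht using h2
  refine ⟨t, ?_⟩
  funext i
  simp only [Pi.add_apply, Pi.smul_apply, smul_eq_mul]
  linear_combination ht i

theorem ip_w' (v w' : V3) (c : ℤ) : ip v ((7 : ℤ) • w' + c • v) = 7 * ip v w' + c * ip v v ∧
    ip ((7 : ℤ) • w' + c • v) ((7 : ℤ) • w' + c • v) =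
      49 * ip w' w' + 14 * c * ip v w' + c ^ 2 * ip v v := by
  simp only [ip, Pi.add_apply, Pi.smul_apply, smul_eq_mul]
  constructor <;> ring

theorem cp7_zero {n1 n2 : ℕ} {b c b' : ℤ} {D : ℕ} (h7 : ¬ (7 : ℤ) ∣ n1) (hb : ¬ (7 : ℤ) ∣ b)
    (hc : b = 7 * b' + c * n1)
    (hDD : (D : ℤ) = n1 * n2 - b ^ 2) (h7D : 7 ∣ D) (h49 : ¬ 49 ∣ D) : cp7 n1 b n2 = 0 := by
  unfold cp7
  rw [Finset.card_eq_zero, Finset.filter_eq_empty_iff]
  rintro ⟨v, w⟩ hvw ⟨h1, h2⟩
  rw [mem_product, mem_vec, mem_vec] at hvw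
  obtain ⟨a1, a2⟩ := hvw
  dsimp only at a1 a2 h1 h2
  have h7z : (7 : ℤ) ∣ n1 * n2 - b ^ 2 := by
    rw [← hDD]
    exact_mod_cast h7D
  obtain ⟨w', rfl⟩ := exists_w' h7 hb hc h7z h2
  obtain ⟨e1, e2⟩ := ip_w' v w' c
  rw [e1, a1] at h1
  rw [e2, a1] at a2
  apply h49
  have : (49 : ℤ) ∣ D := by
    refine ⟨n1 * ip w' w' - ip v w' ^ 2, ?_⟩
    rw [hDD, ← a2]
    linear_combination (7 * ip v w' + c * n1 + b) * h1
  exact_mod_cast this

theorem cp7_eq {n1 n2 n3 : ℕ} {b b' c : ℤ} (h7 : ¬ (7 : ℤ) ∣ n1) (hb : ¬ (7 : ℤ) ∣ b)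
    (hc : b = 7 * b' + c * n1) (h7D : (7 : ℤ) ∣ n1 * n2 - b ^ 2)
    (hn : 49 * (n3 : ℤ) = n2 - 14 * c * b' - c ^ 2 * n1) :
    cp7 n1 b n2 = cp n1 b' n3 := by
  classical
  obtain ⟨s, hs⟩ := dvd_n2 h7 hc h7D
  unfold cp7 cp
  symm
  refine Finset.card_bij (fun q _ => (q.1, (7 : ℤ) • q.2 + c • q.1)) ?_ ?_ ?_
  · rintro ⟨v, w'⟩ h
    rw [mem_filter, mem_product, mem_vec, mem_vec] at h ⊢
    obtain ⟨⟨a1, a2⟩, a3⟩ := h
    dsimp only at a1 a2 a3 ⊢
    obtain ⟨e1, e2⟩ := ip_w' v w' c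
    rw [e1, e2, a1, a2, a3]
    refine ⟨⟨rfl, ?_⟩, ?_, fun i => ⟨s * v i - b * w' i, ?_⟩⟩
    · linear_combination hn
    · linear_combination -hc
    · simp only [Pi.add_apply, Pi.smul_apply, smul_eq_mul]
      linear_combination (v i) * hs
  · rintro ⟨v, w'⟩ _ ⟨v2, w2⟩ _ he
    have h1 : v = v2 := congrArg Prod.fst he
    have h2 : (7 : ℤ) • w' + c • v = (7 : ℤ) • w2 + c • v2 := congrArg Prod.snd he
    subst h1
    have h4 : w' = w2 := by
      funext i
      have := congrFun h2 i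
      simp only [Pi.add_apply, Pi.smul_apply, smul_eq_mul] at this
      omega
    rw [h4]
  · rintro ⟨v, w⟩ h
    rw [mem_filter, mem_product, mem_vec, mem_vec] at h
    obtain ⟨⟨a1, a2⟩, a3, a4⟩ := h
    dsimp only at a1 a2 a3 a4
    obtain ⟨w', rfl⟩ := exists_w' h7 hb hc h7D a4
    obtain ⟨e1, e2⟩ := ip_w' v w' c
    rw [e1, a1] at a3
    rw [e2, a1] at a2
    refine ⟨(v, w'), ?_, rfl⟩
    rw [mem_filter, mem_product, mem_vec, mem_vec]
    have h5 : ip v w' = b' := by linarith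
    refine ⟨⟨a1, ?_⟩, h5⟩
    dsimp only
    rw [h5] at a2
    have : 49 * ip w' w' = 49 * (n3 : ℤ) := by linear_combination a2 - hn
    linarith

theorem fac_sq {n D l : ℕ} (hl : l.Prime) (l7 : l ≠ 7) (D0 : D ≠ 0) :
    fac n (49 * D) l = fac n D l := by
  have p7 : Nat.Prime 7 := by norm_num
  have hv : (49 * D).factorization l = D.factorization l := by
    rw [Nat.factorization_mul (by norm_num) D0]
    have e : 49 = 7 ^ 2 := by norm_num
    rw [Finsupp.add_apply, e, p7.factorization_pow]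
    simp [Ne.symm l7]
  have h7l : ¬ l ∣ 7 := by
    rw [Nat.prime_dvd_prime_iff_eq hl p7]
    exact l7
  have hdiv : 49 * D / l ^ D.factorization l = 49 * (D / l ^ D.factorization l) :=
    Nat.mul_div_assoc _ (Nat.ordProj_dvd D l)
  unfold fac
  split_ifs with h1
  · unfold hh
    rw [hv, hdiv]
    split_ifs with h2
    · have e : (-((49 * (D / l ^ D.factorization l) : ℕ) : ℤ)) =
          (-((D / l ^ D.factorization l : ℕ) : ℤ)) * ((7 : ℕ) : ℤ) ^ 2 := by
        push_cast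
        ring
      rw [e, jac_sq hl _ h7l]
    · have e : (-((n / l * (49 * (D / l ^ D.factorization l)) : ℕ) : ℤ)) =
          (-((n / l * (D / l ^ D.factorization l) : ℕ) : ℤ)) * ((7 : ℕ) : ℤ) ^ 2 := by
        push_cast
        ring
      rw [e, jac_sq hl _ h7l]
  · rw [hv]

theorem lrest_sq {n D : ℕ} (D0 : D ≠ 0) : lrest n (49 * D) = lrest n D := by
  have p7 : Nat.Prime 7 := by norm_num
  have e : 49 = 7 ^ 2 := by norm_num
  have hv : ∀ l : ℕ, l ≠ 7 → (49 * D).factorization l = D.factorization l := by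
    intro l hl
    rw [Nat.factorization_mul (by norm_num) D0, Finsupp.add_apply, e, p7.factorization_pow]
    simp [Ne.symm hl]
  unfold lrest tw
  rw [hv 3 (by norm_num), hv 2 (by norm_num)]
  have hp : (((49 * D).primeFactors.erase 2).erase 7).erase 3 =
      ((D.primeFactors.erase 2).erase 7).erase 3 := by
    have h1 : (49 * D).primeFactors = {7} ∪ D.primeFactors := by
      rw [Nat.primeFactors_mul (by norm_num) D0, e, Nat.primeFactors_prime_pow (by norm_num) p7]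
    rw [h1]
    ext p
    simp only [mem_erase, mem_union, mem_singleton]
    tauto
  rw [hp]
  by_cases h5 : Odd (D.factorization 3)
  · rw [if_pos h5, if_pos h5]
    congr 1
    refine Finset.prod_congr rfl fun l hl => ?_
    rw [mem_erase, mem_erase, mem_erase] at hl
    exact fac_sq (Nat.prime_of_mem_primeFactors hl.2.2.2) hl.2.1 D0
  · rw [if_neg h5, if_neg h5]

theorem loc_eq {n D : ℕ} (hn7 : I7 n) (D0 : D ≠ 0) :
    loc n D = ((D.factorization 7 : ℤ) + 1) * lrest n D := by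
  have p7 : Nat.Prime 7 := by norm_num
  have f7 : ∑ j ∈ range (D.factorization 7 + 1), (jacobiSym (-(n : ℤ)) 7) ^ j =
      (D.factorization 7 : ℤ) + 1 := by
    have h1 : jacobiSym (-(n : ℤ)) 7 = 1 := by
      rw [jacobiSym.mod_left]
      have h2 : (-(n : ℤ)) % ((7 : ℕ) : ℤ) = 4 ∨ (-(n : ℤ)) % ((7 : ℕ) : ℤ) = 2 ∨
          (-(n : ℤ)) % ((7 : ℕ) : ℤ) = 1 := by
        unfold I7 at hn7
        push_cast
        omega
      rcases h2 with h2 | h2 | h2 <;> rw [h2] <;> norm_num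
    rw [h1]
    simp
  have hn : ¬ 7 ∣ n := by
    unfold I7 at hn7
    omega
  unfold loc lrest
  split_ifs with h5
  · by_cases h3 : 7 ∣ D
    · have h3m : 7 ∈ (D.primeFactors.erase 2).erase 3 := by
        rw [mem_erase, mem_erase]
        exact ⟨by norm_num, by norm_num, Nat.mem_primeFactors.2 ⟨p7, h3, D0⟩⟩
      rw [← Finset.mul_prod_erase _ _ h3m]
      have e1 : ((D.primeFactors.erase 2).erase 3).erase 7 =
          ((D.primeFactors.erase 2).erase 7).erase 3 := Finset.erase_right_comm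
      have e2 : fac n D 7 = (D.factorization 7 : ℤ) + 1 := by
        unfold fac
        rw [if_neg hn, f7]
      rw [e1, e2]
      ring
    · have e1 : ((D.primeFactors.erase 2).erase 7).erase 3 = (D.primeFactors.erase 2).erase 3 := by
        rw [Finset.erase_right_comm, Finset.erase_eq_of_notMem (a := 7)]
        rw [mem_erase, mem_erase]
        rintro ⟨_, _, h6⟩
        exact h3 (Nat.dvd_of_mem_primeFactors h6)
      rw [e1, Nat.factorization_eq_zero_of_not_dvd h3]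
      simp
  · simp

theorem t_CP7 : S_CP7 := by
  intro n1 n2 b D hs hn4 hn7 hn7' h3 h7D hD hDD
  have p7 : Nat.Prime 7 := by norm_num
  rw [pc n1 n2 b D hs hn4 h3 hD hDD, loc_eq hn7 hD.ne']
  unfold loc7
  have h7n1 : ¬ (7 : ℤ) ∣ n1 := by
    unfold I7 at hn7
    omega
  have h7n2 : ¬ (7 : ℤ) ∣ n2 := by
    unfold I7 at hn7'
    omega
  have h7z : (7 : ℤ) ∣ n1 * n2 - b ^ 2 := by
    rw [← hDD]
    exact_mod_cast h7D
  have h7b : ¬ (7 : ℤ) ∣ b := by
    intro h
    have h1 : (7 : ℤ) ∣ n1 * n2 := by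
      have h2 : (7 : ℤ) ∣ b ^ 2 := dvd_pow h two_ne_zero
      exact (dvd_sub_left h2).1 h7z
    rcases prime7.dvd_or_dvd h1 with h2 | h2
    · exact h7n1 h2
    · exact h7n2 h2
  obtain ⟨c, b', hc⟩ := exists_c (b := b) h7n1
  have v1 : 1 ≤ D.factorization 7 := (p7.dvd_iff_one_le_factorization hD.ne').1 h7D
  by_cases h49 : 49 ∣ D
  · obtain ⟨E, hE⟩ := h49
    have E0 : E ≠ 0 := by
      rintro rfl
      omega
    have key : (n1 : ℤ) * (n2 - 14 * c * b' - c ^ 2 * n1) = 49 * (E + b' ^ 2) := by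
      have h2 : (49 * E : ℤ) = n1 * n2 - b ^ 2 := by
        rw [← hDD, hE]
        push_cast
        ring
      rw [hc] at h2
      linear_combination -h2
    have h49' : (49 : ℤ) ∣ n2 - 14 * c * b' - c ^ 2 * n1 := by
      have h1 : (49 : ℤ) ∣ n1 * (n2 - 14 * c * b' - c ^ 2 * n1) := ⟨_, key⟩
      have h2 : IsCoprime (49 : ℤ) n1 := by
        have h3 : IsCoprime ((7 : ℤ)) n1 := (Prime.coprime_iff_not_dvd prime7).2 h7n1
        have : (49 : ℤ) = 7 ^ 2 := by norm_num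
        rw [this]
        exact h3.pow_left
      exact h2.dvd_of_dvd_mul_left h1
    obtain ⟨y, hy⟩ := h49'
    rw [hy] at key
    have n10 : 0 < (n1 : ℤ) := by
      have := Nat.pos_of_ne_zero hs.ne_zero
      exact_mod_cast this
    have key2 : (n1 : ℤ) * y = E + b' ^ 2 := by
      have : 49 * ((n1 : ℤ) * y) = 49 * (E + b' ^ 2) := by linear_combination key
      linarith
    have y0 : 0 ≤ y := by
      by_contra hneg
      push Not at hneg
      have h1 : (n1 : ℤ) * y < 0 := mul_neg_of_pos_of_neg n10 hneg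
      rw [key2] at h1
      have h2 : (0 : ℤ) ≤ E := by positivity
      nlinarith [sq_nonneg b']
    obtain ⟨n3, rfl⟩ := Int.eq_ofNat_of_zero_le y0
    rw [cp7_eq h7n1 h7b hc h7z hy.symm]
    have hDE : (E : ℤ) = n1 * n3 - b' ^ 2 := by linarith
    rw [pc n1 n3 _ E hs hn4 h3 (Nat.pos_of_ne_zero E0) hDE, loc_eq hn7 E0]
    have hv : (D.factorization 7 : ℤ) = E.factorization 7 + 2 := by
      rw [hE, Nat.factorization_mul (by norm_num) E0]
      have e : 49 = 7 ^ 2 := by norm_num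
      rw [Finsupp.add_apply, e, p7.factorization_pow]
      simp
      ring
    have hl : lrest n1 D = lrest n1 E := by
      rw [hE]
      exact lrest_sq E0
    rw [hv, hl]
    ring
  · rw [cp7_zero h7n1 h7b hc hDD h7D h49]
    have hv : D.factorization 7 = 1 := by
      have h1 : ¬ 2 ≤ D.factorization 7 := by
        intro h2
        exact h49 ((p7.pow_dvd_iff_le_factorization hD.ne').2 h2)
      omega
    rw [hv]
    push_cast
    ring

end Run7.h238.P21
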