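import Pool.Agent.Run7.h238.P21.Bij

/-!
# The number of pairs of vectors is twelve times the number of parameters
-/

set_option autoImplicit false

namespace Run7.h238.P21

open Matrix hiding vec
open Pool.Agent.N969.P15 (V3)
open Pool.Agent.Run7.h843.P21 (ip vec cp)

/-- the condition on a tuple of parameters -/
def XPq (n b D : ℤ) (q : ℤ × ℤ × ℤ × ℤ × ℤ) : Prop :=
  XP n b D q.1 q.2.1 q.2.2.1 q.2.2.2.1 q.2.2.2.2

/-- the Gram matrix of a tuple -/
def GGq (n : ℤ) (q : ℤ × ℤ × ℤ × ℤ × ℤ) : M3 := GG n q.2.1 q.2.2.1 q.2.2.2.1 q.2.2.2.2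

/-- tuples with frames -/
def FSt (n b D : ℤ) : Type := {q : (ℤ × ℤ × ℤ × ℤ × ℤ) × M3 //
  XPq n b D q.1 ∧ q.2 * NN * q.2ᵀ = GGq n q.1 ∧ q.2.det = 1}

/-- pairs of vectors with given Gram matrix -/
def PSt (n b n2 : ℤ) : Type := {q : V3 × V3 // ip q.1 q.1 = n ∧ ip q.2 q.2 = n2 ∧ ip q.1 q.2 = b}

theorem card_FSt (n b D : ℤ) : Nat.card (FSt n b D) = Nat.card {q // XPq n b D q} * 12 := by
  have e1 : FSt n b D ≃ Σ x : {q // XPq n b D q}, {A : M3 // A * NN * Aᵀ = GGq n x.1 ∧ A.det = 1} :=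
    { toFun := fun q => ⟨⟨q.1.1, q.2.1⟩, ⟨q.1.2, q.2.2⟩⟩
      invFun := fun s => ⟨(s.1.1, s.2.1), s.1.2, s.2.2⟩
      left_inv := fun q => rfl
      right_inv := fun s => rfl }
  have e2 : ∀ x : {q // XPq n b D q},
      Nonempty ({A : M3 // A * NN * Aᵀ = GGq n x.1 ∧ A.det = 1} ≃ Fin 12) := by
    intro x
    have h1 : Nat.card {A : M3 // A * NN * Aᵀ = GGq n x.1 ∧ A.det = 1} = 12 := card_frames x.2.gd
    have : Finite {A : M3 // A * NN * Aᵀ = GGq n x.1 ∧ A.det = 1} :=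
      Nat.finite_of_card_ne_zero (by rw [h1]; norm_num)
    exact ⟨Finite.equivFinOfCardEq h1⟩
  have e3 : (Σ x : {q // XPq n b D q}, {A : M3 // A * NN * Aᵀ = GGq n x.1 ∧ A.det = 1}) ≃
      {q // XPq n b D q} × Fin 12 :=
    (Equiv.sigmaCongrRight fun x => (e2 x).some).trans (Equiv.sigmaEquivProd _ _)
  rw [Nat.card_congr (e1.trans e3), Nat.card_prod, Nat.card_eq_fintype_card (α := Fin 12),
    Fintype.card_fin]

theorem entries {n a h z g : ℤ} {A : M3} (hA : A * NN * Aᵀ = GG n a h z g) :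
    nn (A 0) (A 0) = 2 * a ∧ nn (A 0) (A 1) = h ∧ nn (A 0) (A 2) = g ∧
      nn (A 1) (A 1) = 2 * ((h ^ 2 + n) / (4 * a)) ∧ nn (A 1) (A 2) = (z + h * g) / (2 * a) ∧
      nn (A 2) (A 2) = 2 * ((z ^ 2 + n * g ^ 2 + 12 * a) / (4 * a * n)) := by
  have g := fun i j => (gram_entry A i j).symm.trans (congrFun (congrFun hA i) j)
  exact ⟨g 0 0, g 0 1, g 0 2, g 1 1, g 1 2, g 2 2⟩

theorem XP.zzz {n b D e a h z g : ℤ} (x : XP n b D e a h z g) {A : M3}
    (hA : A * NN * Aᵀ = GG n a h z g) : zz (A 0) (A 1) (A 2) = z := by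
  obtain ⟨h00, h01, h02, h11, h12, h22⟩ := entries hA
  unfold zz
  rw [h00, h01, h02, h12]
  have := Int.mul_ediv_cancel' x.zg
  linear_combination this

theorem XP.nnn {n b D e a h z g : ℤ} (x : XP n b D e a h z g) {A : M3}
    (hA : A * NN * Aᵀ = GG n a h z g) :
    nn (A 0) (A 0) * nn (A 1) (A 1) - nn (A 0) (A 1) ^ 2 = n := by
  obtain ⟨h00, h01, h02, h11, h12, h22⟩ := entries hA
  rw [h00, h01, h11]
  have := Int.mul_ediv_cancel' x.hh
  linear_combination this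

theorem XP.fp {n b D e a h z g : ℤ} (x : XP n b D e a h z g) {A : M3}
    (hA : A * NN * Aᵀ = GG n a h z g) (hd : A.det = 1) : FP n b D e (A 0) (A 1) (A 2) := by
  obtain ⟨h00, h01, h02, h11, h12, h22⟩ := entries hA
  refine ⟨by rw [← det_tp]; exact hd, x.e0, ?_, ?_, ?_, ?_, ?_, ?_, ?_, x.nnn hA, ?_⟩
  · rw [h00, ← x.hD]
    ring
  · rw [h01]
    exact x.h0
  · rw [h01, h00]
    exact x.h1
  · rw [h02]
    exact x.g0
  · rw [h02, h00]
    exact x.g1
  · rw [x.zzz hA]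
    exact x.z0
  · rw [x.zzz hA]
    exact x.z1
  · rw [x.zzz hA]
    exact x.bz

theorem pair_ok {n n2 b D e a h z g : ℤ} (x : XP n b D e a h z g) (hDD : D = n * n2 - b ^ 2) {A : M3}
    (hA : A * NN * Aᵀ = GG n a h z g) :
    ip (cr (A 0) (A 1)) (cr (A 0) (A 1)) = n ∧
    ip (e • cr (A 2) (A 0) + ((b + e * z) / n) • cr (A 0) (A 1))
      (e • cr (A 2) (A 0) + ((b + e * z) / n) • cr (A 0) (A 1)) = n2 ∧
    ip (cr (A 0) (A 1)) (e • cr (A 2) (A 0) + ((b + e * z) / n) • cr (A 0) (A 1)) = b := by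
  obtain ⟨h00, h01, h02, h11, h12, h22⟩ := entries hA
  have n0 : 0 < n := lt_of_le_of_lt x.z0 x.z1
  have k1 := Int.mul_ediv_cancel' x.hh
  have k2 := Int.mul_ediv_cancel' x.zg
  have k3 := Int.mul_ediv_cancel' x.cc
  have k4 : n * ((b + e * z) / n) = b + e * z := by
    refine Int.mul_ediv_cancel' ?_
    have := x.bz
    rwa [add_comm] at this
  set μ := (b + e * z) / n with hμ
  have vv : ip (cr (A 0) (A 1)) (cr (A 0) (A 1)) = n := by
    rw [ip_cr, nn_comm (A 1) (A 0)]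
    have := x.nnn hA
    linear_combination this
  have cv : ip (cr (A 0) (A 1)) (cr (A 2) (A 0)) = -z := by
    rw [ip_cr]
    have := x.zzz hA
    unfold zz at this
    rw [nn_comm (A 1) (A 0)]
    linear_combination -this
  have cc : n * ip (cr (A 2) (A 0)) (cr (A 2) (A 0)) = z ^ 2 + 12 * a := by
    rw [ip_cr, nn_comm (A 2) (A 0), h00, h02, h22]
    linear_combination k3
  have l1 : ∀ v c : V3, ip v (e • c + μ • v) = e * ip v c + μ * ip v v := by
    intro v c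
    simp only [ip, Pi.add_apply, Pi.smul_apply, smul_eq_mul]
    ring
  have l2 : ∀ v c : V3, ip (e • c + μ • v) (e • c + μ • v) =
      e ^ 2 * ip c c + 2 * e * μ * ip v c + μ ^ 2 * ip v v := by
    intro v c
    simp only [ip, Pi.add_apply, Pi.smul_apply, smul_eq_mul]
    ring
  refine ⟨vv, ?_, ?_⟩
  · apply mul_left_cancel₀ n0.ne'
    rw [l2, vv, cv]
    linear_combination e ^ 2 * cc + x.hD + hDD + (n * μ + b - e * z) * k4
  · rw [l1, vv, cv]
    linear_combination k4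

/-- the map from the frames to the pairs -/
def Phi {n n2 b D : ℤ} (hDD : D = n * n2 - b ^ 2) (q : FSt n b D) : PSt n b n2 :=
  ⟨(cr (q.1.2 0) (q.1.2 1), q.1.1.1 • cr (q.1.2 2) (q.1.2 0) +
      ((b + q.1.1.1 * q.1.1.2.2.2.1) / n) • cr (q.1.2 0) (q.1.2 1)), pair_ok q.2.1 hDD q.2.2.1⟩

theorem Phi_inj {n n2 b D : ℤ} (hDD : D = n * n2 - b ^ 2) : Function.Injective (Phi hDD) := by
  rintro ⟨⟨⟨e, a, h, z, g⟩, A⟩, x, hA, hd⟩ ⟨⟨⟨e', a', h', z', g'⟩, A'⟩, x', hA', hd'⟩ heq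
  have h1 := congrArg (fun q => q.1.1) heq
  have h2 := congrArg (fun q => q.1.2) heq
  change XP n b D e a h z g at x
  change XP n b D e' a' h' z' g' at x'
  change A * NN * Aᵀ = GG n a h z g at hA
  change A' * NN * A'ᵀ = GG n a' h' z' g' at hA'
  change A.det = 1 at hd
  change A'.det = 1 at hd'
  obtain ⟨r1, r2, r3, r4⟩ := inj_frames (x.fp hA hd) (x'.fp hA' hd') h1 h2
  have eA : A = A' := by
    funext i
    fin_cases i
    · exact r2
    · exact r3
    · exact r4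
  subst eA
  obtain ⟨h00, h01, h02, h11, h12, h22⟩ := entries hA
  obtain ⟨h00', h01', h02', h11', h12', h22'⟩ := entries hA'
  have r5 : a = a' := by omega
  have r6 : h = h' := by omega
  have r7 : g = g' := by omega
  have r8 : z = z' := (x.zzz hA).symm.trans (x'.zzz hA')
  clear heq h1 h2
  subst r1
  subst r5
  subst r6
  subst r7
  subst r8
  rfl

theorem Phi_surj {n n2 b D : ℤ} (hs : Squarefree n) (n0 : 0 < n) (hD : 0 < D)
    (hDD : D = n * n2 - b ^ 2) : Function.Surjective (Phi hDD) := by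
  rintro ⟨⟨v, u⟩, hv, hu, hvu⟩
  obtain ⟨e, μ, x, y, w, hf, rfl, rfl⟩ := surj_frames hs n0 hD hDD hv hu hvu
  dsimp only at hv hu hvu
  obtain ⟨a, ha⟩ := even_nn x
  obtain ⟨b', hb'⟩ := even_nn y
  obtain ⟨c, hc⟩ := even_nn w
  have e0 := hf.e0
  have x0 : 0 < nn x x := by
    have h1 := hf.hD
    by_contra hc
    push Not at hc
    nlinarith [sq_nonneg e]
  have a0 : 0 < a := by omega
  have hdet : (Matrix.of ![x, y, w] : M3).det = 1 := by
    rw [det_tp]
    exact hf.tp1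
  have hG : (Matrix.of ![x, y, w] : M3) * NN * (Matrix.of ![x, y, w] : M3)ᵀ =
      !![nn x x, nn x y, nn x w; nn x y, nn y y, nn y w; nn x w, nn y w, nn w w] := by
    ext i j
    rw [gram_entry]
    fin_cases i <;> fin_cases j <;> first | rfl | exact nn_comm _ _
  have hdet2 : (!![nn x x, nn x y, nn x w; nn x y, nn y y, nn y w; nn x w, nn y w, nn w w] : M3).det =
      6 := by
    rw [← hG, Matrix.det_mul, Matrix.det_mul, Matrix.det_transpose, hdet]
    decide
  rw [Matrix.det_fin_three] at hdet2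
  simp only [Matrix.of_apply, Matrix.cons_val_zero, Matrix.cons_val_one, Matrix.cons_val] at hdet2
  have hn := hf.hn
  have k1 : nn x y ^ 2 + n = 4 * a * b' := by
    rw [← hn, ha, hb']
    ring
  have k2 : zz x y w + nn x y * nn x w = 2 * a * nn y w := by
    unfold zz
    rw [ha]
    ring
  have k3 : zz x y w ^ 2 + n * nn x w ^ 2 + 12 * a = 4 * a * n * c := by
    have h1 : n * (nn x x * nn w w - nn x w ^ 2) - zz x y w ^ 2 = 6 * nn x x := by
      rw [← hn]
      unfold zz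
      linear_combination (nn x x) * hdet2
    rw [ha, hc] at h1
    linear_combination -h1
  have a4 : 4 * a ≠ 0 := by omega
  have a2 : 2 * a ≠ 0 := by omega
  have an4 : 4 * a * n ≠ 0 := by positivity
  have hX : XP n b D e a (nn x y) (zz x y w) (nn x w) := by
    refine ⟨e0, a0, ?_, hf.h0, ?_, ⟨b', k1⟩, hf.z0, hf.z1, hf.g0, ?_, ⟨_, k2⟩, ⟨c, k3⟩, hf.bz⟩
    · rw [← hf.hD, ha]
      ring
    · rw [← ha]
      exact hf.h1
    · rw [← ha]
      exact hf.g1
  have hGG : (Matrix.of ![x, y, w] : M3) * NN * (Matrix.of ![x, y, w] : M3)ᵀ =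
      GG n a (nn x y) (zz x y w) (nn x w) := by
    rw [hG]
    unfold GG
    rw [k1, k2, k3, Int.mul_ediv_cancel_left _ a4, Int.mul_ediv_cancel_left _ a2,
      Int.mul_ediv_cancel_left _ an4, ha, hb', hc]
  refine ⟨⟨((e, a, nn x y, zz x y w, nn x w), Matrix.of ![x, y, w]), hX, hGG, hdet⟩, ?_⟩
  apply Subtype.ext
  have hμ : (b + e * zz x y w) / n = μ := by
    have h1 : b + e * zz x y w = n * μ := by
      have h2 : ip (cr x y) (e • cr w x + μ • cr x y) =
          e * ip (cr x y) (cr w x) + μ * ip (cr x y) (cr x y) := by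
        simp only [ip, Pi.add_apply, Pi.smul_apply, smul_eq_mul]
        ring
      rw [hv, ip_cr, nn_comm y x] at h2
      rw [← hvu, h2]
      unfold zz
      ring
    rw [h1, Int.mul_ediv_cancel_left _ n0.ne']
  show (cr x y, e • cr w x + ((b + e * zz x y w) / n) • cr x y) = (cr x y, e • cr w x + μ • cr x y)
  rw [hμ]

/-- the number of pairs -/
theorem cp_eq (n1 n2 : ℕ) (b : ℤ) (D : ℕ) (hs : Squarefree n1) (hD : 0 < D)
    (hDD : (D : ℤ) = n1 * n2 - b ^ 2) :
    cp n1 b n2 = 12 * Nat.card {q // XPq n1 b D q} := by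
  have n0 : 0 < n1 := Nat.pos_of_ne_zero hs.ne_zero
  have hs' : Squarefree (n1 : ℤ) := Int.squarefree_natCast.2 hs
  have h1 : Nat.card (FSt n1 b D) = Nat.card (PSt n1 b n2) :=
    Nat.card_congr (Equiv.ofBijective (Phi hDD)
      ⟨Phi_inj hDD, Phi_surj hs' (by exact_mod_cast n0) (by exact_mod_cast hD) hDD⟩)
  have h2 : cp n1 b n2 = Nat.card (PSt n1 b n2) := by
    unfold cp PSt
    symm
    refine Nat.subtype_card _ fun q => ?_
    rw [Finset.mem_filter, Finset.mem_product, mem_vec, mem_vec]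
    tauto
  rw [h2, ← h1, card_FSt, mul_comm]

end Run7.h238.P21
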