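import Pool.Agent.Run7.h238.P21.Lv
import Pool.Agent.Run7.h238.P21.CpX

/-!
# The number of pairs of vectors with a given Gram matrix by local densities
-/

set_option autoImplicit false

namespace Run7.h238.P21

open Finset
open Pool.Agent.Z700 (hh fac)
open Pool.Agent.N969.P15 (V3 tw)
open Pool.Agent.Run7.h843.P21 (ip cp loc S_PC)
open Run7.h238.P (YP card_YP ss conv_eq chi rho RF SQ chi_cases)

/-- the parameters as a sigma type -/
def eqvX {n b : ℤ} {m D : ℤ} (hD : D = 12 * m) : {q // XPq n b D q} ≃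
    Σ t : {t : ℤ × ℤ × ℤ // YP n m t.1 t.2.1 t.2.2},
      {q : ℤ × ℤ // ZP n b t.1.1 t.1.2.1 t.1.2.2 q.1 q.2} where
  toFun q := ⟨⟨(q.1.1, q.1.2.1, q.1.2.2.1), by
    obtain ⟨x0, x1, x2, x3, x4, x5, x6, x7, x8, x9, x10, x11, x12⟩ := q.2
    exact ⟨x0, x1, by linarith, x3, x4, x5⟩⟩, ⟨(q.1.2.2.2.1, q.1.2.2.2.2), by
    obtain ⟨x0, x1, x2, x3, x4, x5, x6, x7, x8, x9, x10, x11, x12⟩ := q.2
    exact ⟨x6, x7, x8, x9, x10, x11, x12⟩⟩⟩
  invFun s := ⟨(s.1.1.1, s.1.1.2.1, s.1.1.2.2, s.2.1.1, s.2.1.2), by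
    obtain ⟨y0, y1, y2, y3, y4, y5⟩ := s.1.2
    obtain ⟨x6, x7, x8, x9, x10, x11, x12⟩ := s.2.2
    exact ⟨y0, y1, by rw [hD]; linear_combination 12 * y2, y3, y4, y5, x6, x7, x8, x9, x10, x11, x12⟩⟩
  left_inv q := rfl
  right_inv s := rfl

theorem finite_ZP (n b e a h : ℤ) : Finite {q : ℤ × ℤ // ZP n b e a h q.1 q.2} := by
  have : Set.Finite {q : ℤ × ℤ | ZP n b e a h q.1 q.2} := by
    refine Set.Finite.subset ((Set.finite_Ico (0 : ℤ) n).prod (Set.finite_Ico (0 : ℤ) (2 * a))) ?_
    rintro ⟨z, g⟩ x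
    exact ⟨⟨x.z0, x.z1⟩, ⟨x.g0, x.g1⟩⟩
  exact this.to_subtype

/-- the local product at the primes of `n` -/
def PL (n D : ℕ) : ℤ := ∏ p ∈ n.primeFactors, if p ∣ D then 1 + hh n D p else 1

theorem card_Z {n : ℕ} (hn : n % 4 = 3) (hs : Squarefree n) (h5 : ¬ 3 ∣ n) {b : ℤ} {m D : ℕ}
    (hD : D = 12 * m) (hb : (n : ℤ) ∣ D + b ^ 2) {e a h : ℤ} (y : YP n m e a h) :
    (Nat.card {q : ℤ × ℤ // ZP n b e a h q.1 q.2} : ℤ) = PL n D := by
  obtain ⟨e0, a0, hm, h0, h1, hh4⟩ := y
  obtain ⟨e', rfl⟩ := Int.eq_ofNat_of_zero_le e0.le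
  obtain ⟨a', rfl⟩ := Int.eq_ofNat_of_zero_le a0.le
  have e0' : 0 < e' := by exact_mod_cast e0
  have a0' : 0 < a' := by exact_mod_cast a0
  have hm' : a' * e' ^ 2 = m := by exact_mod_cast hm
  have hD' : D = 12 * a' * e' ^ 2 := by rw [hD, ← hm']; ring
  have hb' : (n : ℤ) ∣ 12 * (a' : ℤ) * (e' : ℤ) ^ 2 + b ^ 2 := by
    rw [hD'] at hb
    push_cast at hb
    exact hb
  rw [card_ZP hn hs a0 hh4 hb']
  push_cast
  unfold PL
  refine Finset.prod_congr rfl fun p hp => ?_
  rw [card_LS hn hs h5 a0' e0' hh4 hb' hp, hD']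

theorem card_X {n : ℕ} (hn : n % 4 = 3) (hs : Squarefree n) (h5 : ¬ 3 ∣ n) {b : ℤ} {m D : ℕ}
    (hm : 0 < m) (hD : D = 12 * m) (hb : (n : ℤ) ∣ D + b ^ 2) :
    (Nat.card {q // XPq n b D q} : ℤ) =
      (∏ p ∈ m.primeFactors, ss n p (m.factorization p)) * PL n D := by
  have hDz : (D : ℤ) = 12 * (m : ℤ) := by rw [hD]; push_cast; rfl
  rcases isEmpty_or_nonempty {t : ℤ × ℤ × ℤ // YP n m t.1 t.2.1 t.2.2} with hE | ⟨⟨t0⟩⟩
  · have h1 : Nat.card {q // XPq n b D q} = 0 := by
      rw [Nat.card_congr (eqvX hDz)]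
      exact Nat.card_of_isEmpty
    have h2 := card_YP n m hm
    rw [Nat.card_of_isEmpty] at h2
    rw [h1, ← conv_eq hn hs hm.ne', ← h2]
    simp
  · set C := Nat.card {q : ℤ × ℤ // ZP n b t0.1.1 t0.1.2.1 t0.1.2.2 q.1 q.2} with hC
    have hC' : (C : ℤ) = PL n D := card_Z hn hs h5 hD hb t0.2
    have e2 : ∀ t : {t : ℤ × ℤ × ℤ // YP n m t.1 t.2.1 t.2.2},
        Nonempty ({q : ℤ × ℤ // ZP n b t.1.1 t.1.2.1 t.1.2.2 q.1 q.2} ≃ Fin C) := by
      intro t
      have h1 : Nat.card {q : ℤ × ℤ // ZP n b t.1.1 t.1.2.1 t.1.2.2 q.1 q.2} = C := by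
        have := card_Z hn hs h5 hD hb t.2
        rw [← hC'] at this
        exact_mod_cast this
      have := finite_ZP n b t.1.1 t.1.2.1 t.1.2.2
      exact ⟨Finite.equivFinOfCardEq h1⟩
    have e3 : (Σ t : {t : ℤ × ℤ × ℤ // YP n m t.1 t.2.1 t.2.2},
        {q : ℤ × ℤ // ZP n b t.1.1 t.1.2.1 t.1.2.2 q.1 q.2}) ≃
        {t : ℤ × ℤ × ℤ // YP n m t.1 t.2.1 t.2.2} × Fin C :=
      (Equiv.sigmaCongrRight fun t => (e2 t).some).trans (Equiv.sigmaEquivProd _ _)
    rw [Nat.card_congr ((eqvX hDz).trans e3), Nat.card_prod, Nat.card_eq_fintype_card (α := Fin C),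
      Fintype.card_fin]
    push_cast
    rw [hC', card_YP n m hm, conv_eq hn hs hm.ne']

theorem chi_ram {n l : ℕ} (hl : l.Prime) (l2 : l ≠ 2) (h : l ∣ n) : chi n l = 0 := by
  unfold chi
  rw [if_neg l2]
  have : Fact l.Prime := ⟨hl⟩
  rw [← jacobiSym.legendreSym.to_jacobiSym, legendreSym.eq_zero_iff,
    ZMod.intCast_zmod_eq_zero_iff_dvd]
  exact (dvd_neg).2 (by exact_mod_cast h)

theorem prod_eq {n : ℕ} (hn : n % 4 = 3) (hs : Squarefree n) (h5 : ¬ 3 ∣ n) {m D : ℕ}
    (hm : 0 < m) (hD : D = 12 * m) :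
    (∏ p ∈ m.primeFactors, ss n p (m.factorization p)) * PL n D =
      ss n 3 (m.factorization 3) * (tw n D * ∏ l ∈ (D.primeFactors.erase 2).erase 3, fac n D l) := by
  have D0 : D ≠ 0 := by omega
  have v20 : ∀ l : ℕ, D.factorization l = Nat.factorization 12 l + m.factorization l := by
    intro l
    rw [hD, Nat.factorization_mul (by norm_num) hm.ne']
    rfl
  have f20 : Nat.factorization 12 = Finsupp.single 2 2 + Finsupp.single 3 1 := by
    have e : 12 = 2 ^ 2 * 3 ^ 1 := by norm_num
    rw [e, Nat.factorization_mul (by norm_num) (by norm_num), Nat.prime_two.factorization_pow,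
      Nat.prime_three.factorization_pow]
  have hsub : m.primeFactors ⊆ D.primeFactors := by
    rw [hD]
    exact Nat.primeFactors_mono (Dvd.intro_left 12 rfl) (by omega)
  have h2D : 2 ∈ D.primeFactors := Nat.mem_primeFactors.2 ⟨Nat.prime_two, by omega, D0⟩
  have h5D : 3 ∈ D.primeFactors.erase 2 := by
    rw [mem_erase]
    exact ⟨by norm_num, Nat.mem_primeFactors.2 ⟨Nat.prime_three, by omega, D0⟩⟩
  have e1 : ∏ p ∈ m.primeFactors, ss n p (m.factorization p) =
      ∏ p ∈ D.primeFactors, ss n p (m.factorization p) := by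
    refine Finset.prod_subset hsub fun p _ hp => ?_
    have : m.factorization p = 0 := Finsupp.notMem_support_iff.1 hp
    rw [this]
    simp [ss]
  rw [e1, ← Finset.mul_prod_erase _ _ h2D, ← Finset.mul_prod_erase _ _ h5D]
  have e2 : tw n D = ss n 2 (m.factorization 2) := by
    unfold tw ss chi
    rw [v20, f20]
    have : ((Finsupp.single 2 2 + Finsupp.single 3 1 : ℕ →₀ ℕ) 2 + m.factorization 2 - 1) =
        m.factorization 2 + 1 := by
      simp
      omega
    rw [this, if_pos rfl]
  have e3 : PL n D = ∏ l ∈ (D.primeFactors.erase 2).erase 3, if l ∣ n then 1 + hh n D l else 1 := by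
    unfold PL
    rw [← Finset.prod_filter, ← Finset.prod_filter]
    refine Finset.prod_congr ?_ fun _ _ => rfl
    ext p
    rw [mem_filter, mem_filter, mem_erase, mem_erase]
    constructor
    · rintro ⟨h1, h2⟩
      have hp := Nat.prime_of_mem_primeFactors h1
      refine ⟨⟨?_, p_ne2 hn h1, Nat.mem_primeFactors.2 ⟨hp, h2, D0⟩⟩, Nat.dvd_of_mem_primeFactors h1⟩
      rintro rfl
      exact h5 (Nat.dvd_of_mem_primeFactors h1)
    · rintro ⟨⟨h1, h2, h3⟩, h4⟩
      exact ⟨Nat.mem_primeFactors.2 ⟨Nat.prime_of_mem_primeFactors h3, h4, hs.ne_zero⟩,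
        Nat.dvd_of_mem_primeFactors h3⟩
  have e4 : (∏ l ∈ (D.primeFactors.erase 2).erase 3, ss n l (m.factorization l)) * PL n D =
      ∏ l ∈ (D.primeFactors.erase 2).erase 3, fac n D l := by
    rw [e3, ← Finset.prod_mul_distrib]
    refine Finset.prod_congr rfl fun l hl => ?_
    rw [mem_erase, mem_erase] at hl
    obtain ⟨l5, l2, hl⟩ := hl
    have hlp := Nat.prime_of_mem_primeFactors hl
    have hv : D.factorization l = m.factorization l := by
      rw [v20, f20]
      simp [Ne.symm l2, Ne.symm l5]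
    unfold fac
    by_cases hln : l ∣ n
    · rw [if_pos hln, if_pos hln]
      have : ss n l (m.factorization l) = 1 := by
        unfold ss
        rw [chi_ram hlp l2 hln, Finset.sum_range_succ']
        simp
      rw [this, one_mul]
    · rw [if_neg hln, if_neg hln, mul_one, hv]
      unfold ss chi
      rw [if_neg l2]
  rw [← e4, e2]
  ring

theorem ip_mod3 (v : V3) : ip v v % 3 = 0 ∨ ip v v % 3 = 1 := by
  set t := v 0 - v 2 with ht
  have e : ip v v = t * t + 3 * (v 1 ^ 2 + t * t + 4 * (v 0 * v 2)) := by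
    unfold ip
    rw [ht]
    ring
  rw [e]
  have h1 : t % 3 = 0 ∨ t % 3 = 1 ∨ t % 3 = 2 := by omega
  have h2 : (t * t) % 3 = ((t % 3) * (t % 3)) % 3 := Int.mul_emod t t 3
  rcases h1 with h | h | h <;> rw [h] at h2 <;> omega

theorem pc : S_PC := by
  intro n n2 b D hs hn h5 hD hDD
  rw [show (cp n b n2 : ℤ) = ((12 * Nat.card {q // XPq n b D q} : ℕ) : ℤ) by
    rw [cp_eq n n2 b D hs hD hDD]]
  push_cast
  have hb : (n : ℤ) ∣ D + b ^ 2 := ⟨n2, by rw [hDD]; ring⟩
  by_cases h20 : 12 ∣ D
  · obtain ⟨m, hm⟩ := h20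
    have m0 : 0 < m := by omega
    have hX := card_X hn hs h5 m0 hm hb
    rw [prod_eq hn hs h5 m0 hm] at hX
    have v5 : D.factorization 3 = m.factorization 3 + 1 := by
      rw [hm, Nat.factorization_mul (by norm_num) m0.ne']
      have f20 : Nat.factorization 12 3 = 1 := by
        have e : 12 = 2 ^ 2 * 3 ^ 1 := by norm_num
        rw [e, Nat.factorization_mul (by norm_num) (by norm_num), Nat.prime_two.factorization_pow,
          Nat.prime_three.factorization_pow]
        simp
      rw [Finsupp.add_apply, f20]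
      ring
    have hcase : n % 3 = 2 ∨ n % 3 = 1 := by omega
    rcases hcase with hc | hc
    · -- no vectors
      have hcp : cp n b n2 = 0 := by
        unfold cp
        rw [Finset.card_eq_zero, Finset.filter_eq_empty_iff]
        rintro ⟨v, w⟩ hvw
        exfalso
        rw [mem_product, mem_vec] at hvw
        have h1 := hvw.1
        dsimp only at h1
        have h2 := ip_mod3 v
        rw [h1] at h2
        omega
      have hchi : chi n 3 = 1 := by
        unfold chi
        rw [if_neg (by norm_num), jacobiSym.mod_left]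
        have h1 : (-(n : ℤ)) % (3 : ℕ) = 1 := by
          push_cast
          omega
        rw [h1]
        norm_num
      have h0 : Nat.card {q // XPq n b D q} = 0 := by
        have := cp_eq n n2 b D hs hD hDD
        omega
      have hss : ss n 3 (m.factorization 3) ≠ 0 := by
        unfold ss
        rw [hchi]
        simp
        positivity
      rw [h0] at hX ⊢
      have hz : tw n D * ∏ l ∈ (D.primeFactors.erase 2).erase 3, fac n D l = 0 := by
        rcases mul_eq_zero.1 hX.symm with h1 | h1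
        · exact absurd h1 hss
        · exact h1
      unfold loc
      rw [hz]
      simp
    · have hchi : chi n 3 = -1 := by
        unfold chi
        rw [if_neg (by norm_num), jacobiSym.mod_left]
        have h1 : (-(n : ℤ)) % (3 : ℕ) = 2 := by
          push_cast
          omega
        rw [h1]
        norm_num
      have hss : ss n 3 (m.factorization 3) = if Odd (D.factorization 3) then 1 else 0 := by
        unfold ss
        rw [hchi, v5]
        generalize m.factorization 3 = k
        induction k with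
        | zero => simp
        | succ k ih =>
          rw [Finset.sum_range_succ, ih]
          rcases Nat.even_or_odd k with hk | hk
          · have h1 : Odd (k + 1) := hk.add_one
            have h2 : ¬ Odd (k + 1 + 1) := by
              rw [Nat.not_odd_iff_even]
              exact h1.add_one
            rw [if_pos h1, if_neg h2, h1.neg_one_pow]
            norm_num
          · have h1 : Even (k + 1) := hk.add_one
            have h2 : ¬ Odd (k + 1) := Nat.not_odd_iff_even.2 h1
            rw [if_neg h2, if_pos h1.add_one, h1.neg_one_pow]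
            norm_num
      rw [hX, hss]
      unfold loc
      split_ifs <;> simp
  · have h0 : Nat.card {q // XPq n b D q} = 0 := by
      have : IsEmpty {q // XPq n b D q} := by
        refine ⟨?_⟩
        rintro ⟨⟨e, a, h, z, g⟩, x⟩
        apply h20
        have h1 := x.hD
        dsimp only at h1
        have h2 : (12 : ℤ) ∣ D := ⟨a * e ^ 2, by rw [← h1]; ring⟩
        exact_mod_cast h2
      exact Nat.card_of_isEmpty
    rw [h0]
    unfold loc
    split_ifs with h1
    · have h5D : 3 ∣ D := by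
        by_contra h2
        rw [Nat.factorization_eq_zero_of_not_dvd h2] at h1
        exact absurd h1 (by decide)
      have h4D : ¬ 4 ∣ D := by
        intro h4
        exact h20 ((by norm_num : Nat.Coprime 4 3).mul_dvd_of_dvd_of_dvd h4 h5D)
      have h2D : D.factorization 2 < 2 := by
        by_contra h3
        push Not at h3
        exact h4D ((Nat.prime_two.pow_dvd_iff_le_factorization hD.ne').2 h3)
      have htw : tw n D = 0 := by
        unfold tw
        have : D.factorization 2 - 1 = 0 := by omega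
        rw [this]
        simp
      rw [htw]
      simp
    · simp

end Run7.h238.P21
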