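import Pool.Agent.Run7.h238.P21.Zn

/-!
# The local numbers
-/

set_option autoImplicit false

namespace Run7.h238.P21

open Finset
open Pool.Agent.Z700 (hh fac)
open Run7.h238.P

theorem fact_eq {p v r : ℕ} (hp : p.Prime) (hr : ¬ p ∣ r) :
    (p ^ v * r).factorization p = v ∧ p ^ v * r / p ^ v = r := by
  have r0 : r ≠ 0 := by
    rintro rfl
    exact hr (dvd_zero p)
  refine ⟨?_, Nat.mul_div_cancel_left _ (pow_pos hp.pos v)⟩
  rw [Nat.factorization_mul (pow_ne_zero _ hp.ne_zero) r0, hp.factorization_pow]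
  simp [Nat.factorization_eq_zero_of_not_dvd hr]

theorem jac_sq {p : ℕ} (hp : p.Prime) (x : ℤ) {s : ℕ} (hs : ¬ p ∣ s) :
    jacobiSym (x * (s : ℤ) ^ 2) p = jacobiSym x p := by
  rw [jacobiSym.mul_left, jacobiSym.sq_one', mul_one]
  rw [Int.gcd_comm]
  have : Int.gcd (p : ℤ) (s : ℤ) = Nat.gcd p s := by
    simp [Int.gcd]
  rw [this]
  exact (Nat.Prime.coprime_iff_not_dvd hp).2 hs

variable {n : ℕ} {b : ℤ}

theorem p_ndvd12 (hn : n % 4 = 3) (h5 : ¬ 3 ∣ n) {p : ℕ} (hp : p ∈ n.primeFactors) : ¬ p ∣ 12 := by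
  intro h1
  have hp0 := Nat.prime_of_mem_primeFactors hp
  have e : (12 : ℕ) = 2 * (2 * 3) := by norm_num
  rw [e] at h1
  rcases (Nat.Prime.dvd_mul hp0).1 h1 with h2 | h2
  · rw [Nat.prime_dvd_prime_iff_eq hp0 Nat.prime_two] at h2
    exact p_ne2 hn hp h2
  · rcases (Nat.Prime.dvd_mul hp0).1 h2 with h3 | h3
    · rw [Nat.prime_dvd_prime_iff_eq hp0 Nat.prime_two] at h3
      exact p_ne2 hn hp h3
    · rw [Nat.prime_dvd_prime_iff_eq hp0 Nat.prime_three] at h3
      subst h3
      exact h5 (Nat.dvd_of_mem_primeFactors hp)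

theorem card_LS (hn : n % 4 = 3) (hs : Squarefree n) (h5 : ¬ 3 ∣ n) {a e : ℕ} (a0 : 0 < a) (e0 : 0 < e)
    {h : ℤ} (hh4 : 4 * (a : ℤ) ∣ h ^ 2 + n) (hb : (n : ℤ) ∣ 12 * a * e ^ 2 + b ^ 2) {p : ℕ}
    (hp : p ∈ n.primeFactors) : ((LS n b e a p).card : ℤ) =
      if p ∣ 12 * a * e ^ 2 then 1 + hh n (12 * a * e ^ 2) p else 1 := by
  classical
  have hp0 := Nat.prime_of_mem_primeFactors hp
  have hp' : Prime (p : ℤ) := Nat.prime_iff_prime_int.1 hp0
  have p2 := p_ne2 hn hp
  have p12 := p_ndvd12 hn h5 hp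
  have hpn : p ∣ n := Nat.dvd_of_mem_primeFactors hp
  have hpnz : (p : ℤ) ∣ n := by exact_mod_cast hpn
  obtain ⟨n', hn'⟩ := hpn
  have hpn' : ¬ p ∣ n' := by
    rintro ⟨n'', rfl⟩
    exact F0 hs hp ⟨n'', by rw [hn']; push_cast; ring⟩
  obtain ⟨k, e', he', hek⟩ := Nat.exists_eq_pow_mul_and_not_dvd e0.ne' p hp0.ne_one
  by_cases ha : p ∣ a
  · have haz : (p : ℤ) ∣ a := by exact_mod_cast ha
    have ha2 := F2 hs hh4 hp
    obtain ⟨a', rfl⟩ := ha
    have hpa' : ¬ p ∣ a' := by
      rintro ⟨a'', rfl⟩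
      exact ha2 ⟨a'', by push_cast; ring⟩
    have hr : ¬ p ∣ 12 * a' * e' ^ 2 := by
      intro h1
      rcases (Nat.Prime.dvd_mul hp0).1 h1 with h2 | h2
      · rcases (Nat.Prime.dvd_mul hp0).1 h2 with h3 | h3
        · exact p12 h3
        · exact hpa' h3
      · exact he' (hp0.dvd_of_dvd_pow h2)
    have eD : 12 * (p * a') * e ^ 2 = p ^ (2 * k + 1) * (12 * a' * e' ^ 2) := by
      rw [hek]
      ring
    obtain ⟨f1, f2⟩ := fact_eq (v := 2 * k + 1) hp0 hr
    rw [if_pos (by rw [eD]; exact Dvd.dvd.mul_right (dvd_pow_self p (Nat.succ_ne_zero _)) _)]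
    unfold hh
    rw [eD, f1, if_neg (by rw [Nat.not_even_iff_odd]; exact ⟨k, rfl⟩), f2]
    have e1 : n / p = n' := by rw [hn', Nat.mul_div_cancel_left _ hp0.pos]
    rw [e1]
    have hα : ¬ (p : ℤ) ∣ (n' : ℤ) := by
      intro h1
      exact hpn' (by exact_mod_cast h1)
    have e2 : (-((n' * (12 * a' * e' ^ 2) : ℕ) : ℤ)) = -((n' : ℤ) * (12 * a')) * (e' : ℤ) ^ 2 := by
      push_cast
      ring
    rw [e2, jac_sq hp0 _ he', ← card_quad hp0 p2 hα]
    congr 2
    unfold LS
    refine Finset.filter_congr fun c _ => ?_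
    unfold Lc
    rw [if_pos haz]
    have e3 : (n : ℤ) * (c : ℤ) ^ 2 + 12 * ((p * a' : ℕ) : ℤ) = p * (n' * (c : ℤ) ^ 2 + 12 * a') := by
      rw [hn']
      push_cast
      ring
    rw [e3, pow_two (p : ℤ)]
    exact mul_dvd_mul_iff_left hp'.ne_zero
  · have haz : ¬ (p : ℤ) ∣ a := by
      intro h1
      exact ha (by exact_mod_cast h1)
    rcases Nat.eq_zero_or_pos k with rfl | k0
    · rw [pow_zero, one_mul] at hek
      subst hek
      have hr : ¬ p ∣ 12 * a * e ^ 2 := by
        intro h1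
        rcases (Nat.Prime.dvd_mul hp0).1 h1 with h2 | h2
        · rcases (Nat.Prime.dvd_mul hp0).1 h2 with h3 | h3
          · exact p12 h3
          · exact ha h3
        · exact he' (hp0.dvd_of_dvd_pow h2)
      rw [if_neg hr]
      have hez : ¬ (p : ℤ) ∣ e := by
        intro h1
        exact he' (by exact_mod_cast h1)
      obtain ⟨u, v, huv⟩ : IsCoprime (e : ℤ) (p : ℤ) := ((Prime.coprime_iff_not_dvd hp').2 hez).symm
      have hp00 : (0 : ℤ) < p := by
        have := hp0.pos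
        exact_mod_cast this
      have : LS n b e a p = {((-(b * u)) % p).toNat} := by
        ext c
        rw [LS, mem_filter, mem_range, mem_singleton]
        unfold Lc
        rw [if_neg haz]
        have m1 := Int.emod_nonneg (-(b * u)) hp00.ne'
        have m2 := Int.emod_lt_of_pos (-(b * u)) hp00
        have m3 := Int.emod_add_mul_ediv (-(b * u)) (p : ℤ)
        constructor
        · rintro ⟨c1, c2, c3⟩
          have h1 : (c : ℤ) = (-(b * u)) % p := by
            refine eq_of_range (by positivity) (by exact_mod_cast c1) m1 m2 ?_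
            obtain ⟨t, ht⟩ := c3
            refine ⟨u * t + v * c + (-(b * u)) / p, ?_⟩
            linear_combination u * ht - m3 - (c : ℤ) * huv
          rw [← h1, Int.toNat_natCast]
        · intro hc
          have h1 : (c : ℤ) = (-(b * u)) % p := by omega
          have h2 : (p : ℤ) ∣ e * c + b := by
            refine ⟨b * v - e * ((-(b * u)) / p), ?_⟩
            rw [h1]
            linear_combination e * m3 - b * huv
          refine ⟨by omega, ?_, h2⟩
          have h3 : (p : ℤ) ∣ e ^ 2 * ((c : ℤ) ^ 2 + 12 * a) := by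
            obtain ⟨t, ht⟩ := h2
            obtain ⟨s, hs'⟩ := hpnz.trans hb
            refine ⟨t * (e * c - b) + s, ?_⟩
            linear_combination (e * c - b) * ht + hs'
          rcases hp'.dvd_or_dvd h3 with h4 | h4
          · exact absurd (hp'.dvd_of_dvd_pow h4) hez
          · exact h4
      rw [this, card_singleton]
      rfl
    · have hr : ¬ p ∣ 12 * a * e' ^ 2 := by
        intro h1
        rcases (Nat.Prime.dvd_mul hp0).1 h1 with h2 | h2
        · rcases (Nat.Prime.dvd_mul hp0).1 h2 with h3 | h3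
          · exact p12 h3
          · exact ha h3
        · exact he' (hp0.dvd_of_dvd_pow h2)
      have eD : 12 * a * e ^ 2 = p ^ (2 * k) * (12 * a * e' ^ 2) := by
        rw [hek]
        ring
      obtain ⟨f1, f2⟩ := fact_eq (v := 2 * k) hp0 hr
      rw [if_pos (by rw [eD]; exact Dvd.dvd.mul_right (dvd_pow_self p (by omega)) _)]
      unfold hh
      rw [eD, f1, if_pos ⟨k, by ring⟩, f2]
      have hα : ¬ (p : ℤ) ∣ (1 : ℤ) := by
        intro h1
        exact hp'.not_unit (isUnit_of_dvd_one h1)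
      have e2 : (-((12 * a * e' ^ 2 : ℕ) : ℤ)) = -((1 : ℤ) * (12 * a)) * (e' : ℤ) ^ 2 := by
        push_cast
        ring
      rw [e2, jac_sq hp0 _ he', ← card_quad hp0 p2 hα]
      congr 2
      unfold LS
      refine Finset.filter_congr fun c _ => ?_
      unfold Lc
      rw [if_neg haz, one_mul]
      have hpe : (p : ℤ) ∣ e := by
        rw [hek]
        push_cast
        exact Dvd.dvd.mul_right (dvd_pow_self _ k0.ne') _
      have hpb : (p : ℤ) ∣ b := by
        have h4 : (p : ℤ) ∣ 12 * a * e ^ 2 := (dvd_pow hpe two_ne_zero).mul_left _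
        exact hp'.dvd_of_dvd_pow ((dvd_add_right h4).1 (hpnz.trans hb))
      exact ⟨fun h1 => h1.1, fun h1 => ⟨h1, dvd_add (hpe.mul_right _) hpb⟩⟩

end Run7.h238.P21
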