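import Pool.Agent.Run7.h238.P21.T3
import Pool.Agent.Run7.h238.P21.Lv

/-!
# The number of representations of a binary form of discriminant `-n`
-/

set_option autoImplicit false

namespace Run7.h238.P21

open Finset
open Pool.Agent.N969.P15 (V3)
open Pool.Agent.Run7.h843.P21 (ip)
open Pool.Agent.Run7.h89.P21 (PN S_T3 S_T4a S_T4b)
open Pool.Agent.Run7.h135.P21 (Slk)
open Run7.h238.P (eq_of_range)

theorem card_crt {n : ℕ} (hs : Squarefree n) (P : ℕ → ℤ → Prop) [∀ p, DecidablePred (P p)]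
    (hP : ∀ p ∈ n.primeFactors, ∀ x y : ℤ, (p : ℤ) ∣ y - x → P p x → P p y) :
    ((range n).filter fun y : ℕ => ∀ p ∈ n.primeFactors, P p y).card =
      ∏ p ∈ n.primeFactors, ((range p).filter fun c : ℕ => P p c).card := by
  classical
  rw [← Finset.card_pi]
  have hn0 : 0 < n := Nat.pos_of_ne_zero hs.ne_zero
  refine Finset.card_bij (fun y _ => fun (p : ℕ) (_ : p ∈ n.primeFactors) => y % p) ?_ ?_ ?_
  · intro y hy
    rw [mem_filter] at hy
    rw [Finset.mem_pi]
    intro p hp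
    have hp0 := (Nat.prime_of_mem_primeFactors hp).pos
    rw [mem_filter, mem_range]
    refine ⟨Nat.mod_lt _ hp0, hP p hp y _ ⟨-(y / p : ℕ), ?_⟩ (hy.2 p hp)⟩
    have := Nat.mod_add_div y p
    have h2 : ((y % p : ℕ) : ℤ) + (p : ℤ) * ((y / p : ℕ) : ℤ) = y := by exact_mod_cast this
    linarith
  · intro y hy z hz he
    rw [mem_filter, mem_range] at hy hz
    have h1 : (n : ℤ) ∣ (y : ℤ) - z := by
      refine n_dvd hs fun p hp => ?_
      have h2 := congrFun (congrFun he p) hp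
      have h3 : (z : ℤ) ≡ y [ZMOD p] := by
        have h4 : z ≡ y [MOD p] := h2.symm
        exact (Int.natCast_modEq_iff).2 h4
      exact h3.dvd
    have := eq_of_range (by positivity) (by exact_mod_cast hy.1) (by positivity)
      (by exact_mod_cast hz.1) h1
    exact_mod_cast this
  · intro f hf
    rw [Finset.mem_pi] at hf
    obtain ⟨x, hx⟩ := crt n.primeFactors (fun p hp => Nat.prime_of_mem_primeFactors hp)
      (fun p => if hp : p ∈ n.primeFactors then (f p hp : ℤ) else 0)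
    have n0 : (0 : ℤ) < n := by exact_mod_cast hn0
    have m1 := Int.emod_nonneg x n0.ne'
    have m2 := Int.emod_lt_of_pos x n0
    have m3 := Int.emod_add_mul_ediv x (n : ℤ)
    have hc : ∀ (p : ℕ) (hp : p ∈ n.primeFactors), (p : ℤ) ∣ x % n - f p hp := by
      intro p hp
      have h1 := hx p hp
      rw [dif_pos hp] at h1
      have hpn : (p : ℤ) ∣ n := by exact_mod_cast Nat.dvd_of_mem_primeFactors hp
      have e1 : x % n - f p hp = (x - f p hp) - n * (x / n) := by linarith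
      rw [e1]
      exact dvd_sub h1 (hpn.mul_right _)
    refine ⟨(x % n).toNat, ?_, ?_⟩
    · rw [mem_filter, mem_range]
      refine ⟨by omega, fun p hp => ?_⟩
      rw [Int.toNat_of_nonneg m1]
      have h1 := hf p hp
      rw [mem_filter] at h1
      exact hP p hp _ _ (hc p hp) h1.2
    · funext p hp
      have h1 := hf p hp
      rw [mem_filter, mem_range] at h1
      have h2 : (((x % n).toNat : ℕ) : ℤ) = x % n := Int.toNat_of_nonneg m1
      have h3 : ((f p hp : ℕ) : ℤ) ≡ (((x % n).toNat : ℕ) : ℤ) [ZMOD p] := by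
        rw [h2]
        exact Int.modEq_iff_dvd.2 (hc p hp)
      have h4 : f p hp ≡ (x % n).toNat [MOD p] := (Int.natCast_modEq_iff).1 h3
      have h5 : f p hp % p = (x % n).toNat % p := h4
      rw [← h5, Nat.mod_eq_of_lt h1.1]

theorem card_roots {n : ℕ} (hs : Squarefree n) (h2 : ¬ 2 ∣ n) {a : ℤ} (hco : IsCoprime a (n : ℤ)) :
    (((range n).filter fun y : ℕ => (n : ℤ) ∣ a * (y : ℤ) ^ 2 + 3).card : ℤ) =
      ∏ p ∈ n.primeFactors, (1 + jacobiSym (-(a * 3)) p) := by
  have e1 : ((range n).filter fun y : ℕ => (n : ℤ) ∣ a * (y : ℤ) ^ 2 + 3) =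
      (range n).filter fun y : ℕ => ∀ p ∈ n.primeFactors, (p : ℤ) ∣ a * (y : ℤ) ^ 2 + 3 := by
    refine Finset.filter_congr fun y _ => ?_
    constructor
    · intro h p hp
      have hpn : (p : ℤ) ∣ n := by exact_mod_cast Nat.dvd_of_mem_primeFactors hp
      exact hpn.trans h
    · exact n_dvd hs
  rw [e1, card_crt hs (fun p x => (p : ℤ) ∣ a * x ^ 2 + 3) (fun p _ x y hxy h => by
    obtain ⟨t, ht⟩ := hxy
    have e0 : y = x + p * t := by linarith
    have e2 : a * y ^ 2 + 3 = (a * x ^ 2 + 3) + p * (a * t * (2 * x + p * t)) := by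
      rw [e0]
      ring
    rw [e2]
    exact dvd_add h (Dvd.intro _ rfl))]
  push_cast
  refine Finset.prod_congr rfl fun p hp => ?_
  have hp0 := Nat.prime_of_mem_primeFactors hp
  have hpn : p ∣ n := Nat.dvd_of_mem_primeFactors hp
  have p2 : p ≠ 2 := by
    rintro rfl
    exact h2 hpn
  refine card_quad hp0 p2 ?_
  intro ha
  have hpn' : (p : ℤ) ∣ n := by exact_mod_cast hpn
  exact (Nat.prime_iff_prime_int.1 hp0).not_unit (hco.isUnit_of_dvd' ha hpn')

/-- the number of solutions is zero or `2 ^ ω` -/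
theorem card_roots_cases {n : ℕ} (hs : Squarefree n) (h2 : ¬ 2 ∣ n) (h5 : ¬ 3 ∣ n) {a : ℤ}
    (hco : IsCoprime a (n : ℤ)) :
    ((∀ p ∈ n.primeFactors, jacobiSym (-(a * 3)) p = 1) ∧
      ((range n).filter fun y : ℕ => (n : ℤ) ∣ a * (y : ℤ) ^ 2 + 3).card = 2 ^ n.primeFactors.card) ∨
    ((¬ ∀ p ∈ n.primeFactors, jacobiSym (-(a * 3)) p = 1) ∧
      ((range n).filter fun y : ℕ => (n : ℤ) ∣ a * (y : ℤ) ^ 2 + 3).card = 0) := by
  have h := card_roots hs h2 hco
  by_cases hall : ∀ p ∈ n.primeFactors, jacobiSym (-(a * 3)) p = 1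
  · left
    refine ⟨hall, ?_⟩
    rw [Finset.prod_congr rfl (fun p hp => by rw [hall p hp]), Finset.prod_const] at h
    have e : ((1 : ℤ) + 1) ^ n.primeFactors.card = ((2 ^ n.primeFactors.card : ℕ) : ℤ) := by
      push_cast
      norm_num
    rw [e] at h
    exact_mod_cast h
  · right
    refine ⟨hall, ?_⟩
    push Not at hall
    obtain ⟨p, hp, hne⟩ := hall
    have hp0 := Nat.prime_of_mem_primeFactors hp
    have hm1 : jacobiSym (-(a * 3)) p = -1 := by
      have hp' : Prime (p : ℤ) := Nat.prime_iff_prime_int.1 hp0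
      have hgcd : (-(a * 3)).gcd p = 1 := by
        rw [← Int.isCoprime_iff_gcd_eq_one]
        refine ((Prime.coprime_iff_not_dvd hp').2 ?_).symm
        intro h3
        have h4 : (p : ℤ) ∣ a * 3 := (dvd_neg).1 h3
        have hpn' : (p : ℤ) ∣ n := by exact_mod_cast Nat.dvd_of_mem_primeFactors hp
        rcases hp'.dvd_or_dvd h4 with h6 | h6
        · exact hp'.not_unit (hco.isUnit_of_dvd' h6 hpn')
        · have h7 : p ∣ 3 := by exact_mod_cast h6
          rw [Nat.prime_dvd_prime_iff_eq hp0 Nat.prime_three] at h7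
          subst h7
          exact h5 (Nat.dvd_of_mem_primeFactors hp)
      rcases jacobiSym.eq_one_or_neg_one hgcd with h8 | h8
      · exact absurd h8 hne
      · exact h8
    rw [Finset.prod_eq_zero hp (by rw [hm1]; norm_num)] at h
    exact_mod_cast h

/-- change of the basis -/
theorem ncard_change (a h c p q r s : ℤ) (hd : p * s - q * r = 1) :
    (PN a h c).ncard = (PN (a * p ^ 2 + h * p * q + c * q ^ 2)
      (2 * a * p * r + h * (p * s + q * r) + 2 * c * q * s)
      (a * r ^ 2 + h * r * s + c * s ^ 2)).ncard := by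
  have key : ∀ (x y : V3) (a' b' c' d' : ℤ), nn (a' • x + b' • y) (c' • x + d' • y) =
      a' * c' * nn x x + (a' * d' + b' * c') * nn x y + b' * d' * nn y y := by
    intro x y a' b' c' d'
    simp only [nn, Pi.add_apply, Pi.smul_apply, smul_eq_mul]
    ring
  rw [← Nat.card_coe_set_eq, ← Nat.card_coe_set_eq]
  refine Nat.card_congr
    { toFun := fun z => ⟨(p • z.1.1 + q • z.1.2, r • z.1.1 + s • z.1.2), ?_⟩
      invFun := fun z => ⟨(s • z.1.1 + (-q) • z.1.2, (-r) • z.1.1 + p • z.1.2), ?_⟩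
      left_inv := ?_
      right_inv := ?_ }
  · obtain ⟨h1, h2, h3⟩ := z.2
    refine ⟨?_, ?_, ?_⟩ <;> dsimp only <;> rw [key, h1, h2, h3] <;> ring
  · obtain ⟨h1, h2, h3⟩ := z.2
    refine ⟨?_, ?_, ?_⟩ <;> dsimp only <;> rw [key, h1, h2, h3]
    · linear_combination (2 * a * (p * s - q * r) + 2 * a) * hd
    · linear_combination (h * (p * s - q * r) + h) * hd
    · linear_combination (2 * c * (p * s - q * r) + 2 * c) * hd
  · rintro ⟨⟨x, y⟩, hz⟩
    apply Subtype.ext
    apply Prod.ext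
    · funext i
      simp only [Pi.add_apply, Pi.smul_apply, smul_eq_mul]
      linear_combination (x i) * hd
    · funext i
      simp only [Pi.add_apply, Pi.smul_apply, smul_eq_mul]
      linear_combination (y i) * hd
  · rintro ⟨⟨x, y⟩, hz⟩
    apply Subtype.ext
    apply Prod.ext
    · funext i
      simp only [Pi.add_apply, Pi.smul_apply, smul_eq_mul]
      linear_combination (x i) * hd
    · funext i
      simp only [Pi.add_apply, Pi.smul_apply, smul_eq_mul]
      linear_combination (y i) * hd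

/-- a basis with first value prime to `n` -/
theorem exists_prim {n : ℕ} {a h c : ℤ} (hs : Squarefree n) (a0 : 0 < a)
    (hn : 4 * a * c - h ^ 2 = n) : ∃ p q r s : ℤ, p * s - q * r = 1 ∧
      0 < a * p ^ 2 + h * p * q + c * q ^ 2 ∧
      IsCoprime (a * p ^ 2 + h * p * q + c * q ^ 2) (n : ℤ) := by
  have n0 : 0 < n := Nat.pos_of_ne_zero hs.ne_zero
  set d := Int.gcd a n with hd
  obtain ⟨m, hm⟩ : d ∣ n := by
    have := Int.gcd_dvd_right a (n : ℤ)
    exact_mod_cast this
  have hda : (d : ℤ) ∣ a := Int.gcd_dvd_left _ _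
  have d0 : d ≠ 0 := by
    rintro h0
    rw [h0, zero_mul] at hm
    omega
  have m0 : m ≠ 0 := by
    rintro h0
    rw [h0, mul_zero] at hm
    omega
  have hdm : Nat.Coprime d m := Nat.coprime_of_squarefree_mul (hm ▸ hs)
  obtain ⟨u, v, huv⟩ : IsCoprime (d : ℤ) (m : ℤ) := Nat.isCoprime_iff_coprime.2 hdm
  refine ⟨d, m, -v, u, by linear_combination huv, ?_, ?_⟩
  · have e1 : 4 * a * (a * (d : ℤ) ^ 2 + h * d * m + c * (m : ℤ) ^ 2) =
        (2 * a * d + h * m) ^ 2 + n * (m : ℤ) ^ 2 := by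
      linear_combination (m : ℤ) ^ 2 * hn
    have h2 : 0 < 4 * a * (a * (d : ℤ) ^ 2 + h * d * m + c * (m : ℤ) ^ 2) := by
      rw [e1]
      have : (0 : ℤ) < n * (m : ℤ) ^ 2 := by positivity
      positivity
    exact (pos_iff_pos_of_mul_pos h2).1 (by positivity)
  · have e2 : (n : ℤ) = ∏ p ∈ n.primeFactors, (p : ℤ) := by
      conv_lhs => rw [← Nat.prod_primeFactors_of_squarefree hs]
      push_cast
      rfl
    rw [e2]
    refine IsCoprime.prod_right fun p hp => ?_
    have hp0 := Nat.prime_of_mem_primeFactors hp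
    have hp' : Prime (p : ℤ) := Nat.prime_iff_prime_int.1 hp0
    refine ((Prime.coprime_iff_not_dvd hp').2 ?_).symm
    intro hdv
    have hpn : (p : ℤ) ∣ n := by exact_mod_cast Nat.dvd_of_mem_primeFactors hp
    by_cases hpd : p ∣ d
    · have hpm : ¬ (p : ℤ) ∣ m := by
        intro h3
        have h4 : p ∣ m := by exact_mod_cast h3
        exact hp0.one_lt.ne' (Nat.eq_one_of_dvd_coprimes hdm hpd h4)
      have hpd' : (p : ℤ) ∣ d := by exact_mod_cast hpd
      have h3 : (p : ℤ) ∣ c * (m : ℤ) ^ 2 := by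
        have e3 : c * (m : ℤ) ^ 2 = (a * (d : ℤ) ^ 2 + h * d * m + c * (m : ℤ) ^ 2) -
            d * (a * d + h * m) := by ring
        rw [e3]
        exact dvd_sub hdv (hpd'.mul_right _)
      have h4 : (p : ℤ) ∣ c := by
        rcases hp'.dvd_or_dvd h3 with h5 | h5
        · exact h5
        · exact absurd (hp'.dvd_of_dvd_pow h5) hpm
      have h5 : (p : ℤ) ∣ a := hpd'.trans hda
      have h6 : (p : ℤ) ∣ h := by
        have h7 : (p : ℤ) ∣ h ^ 2 := by
          have e3 : h ^ 2 = a * (4 * c) - n := by linarith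
          rw [e3]
          exact dvd_sub (h5.mul_right _) hpn
        exact hp'.dvd_of_dvd_pow h7
      refine F0 hs hp ?_
      rw [← hn, pow_two]
      obtain ⟨x, hx⟩ := h4
      obtain ⟨y, hy⟩ := h5
      obtain ⟨z, hz⟩ := h6
      exact ⟨4 * y * x - z ^ 2, by rw [hx, hy, hz]; ring⟩
    · have hpa : ¬ (p : ℤ) ∣ a := by
        intro h3
        have h4 : (p : ℤ) ∣ (d : ℤ) := Int.dvd_coe_gcd h3 hpn
        exact hpd (by exact_mod_cast h4)
      have hpm : (p : ℤ) ∣ m := by
        have h4 : p ∣ d * m := by rw [← hm]; exact Nat.dvd_of_mem_primeFactors hp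
        rcases (Nat.Prime.dvd_mul hp0).1 h4 with h5 | h5
        · exact absurd h5 hpd
        · exact_mod_cast h5
      have h3 : (p : ℤ) ∣ a * (d : ℤ) ^ 2 := by
        have e3 : a * (d : ℤ) ^ 2 = (a * (d : ℤ) ^ 2 + h * d * m + c * (m : ℤ) ^ 2) -
            m * (h * d + c * m) := by ring
        rw [e3]
        exact dvd_sub hdv (hpm.mul_right _)
      rcases hp'.dvd_or_dvd h3 with h5 | h5
      · exact hpa h5
      · exact hpd (by exact_mod_cast hp'.dvd_of_dvd_pow h5)

theorem disc_change {n a h c p q r s : ℤ} (hd : p * s - q * r = 1) (hn : 4 * a * c - h ^ 2 = n) :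
    4 * (a * p ^ 2 + h * p * q + c * q ^ 2) * (a * r ^ 2 + h * r * s + c * s ^ 2) -
      (2 * a * p * r + h * (p * s + q * r) + 2 * c * q * s) ^ 2 = n := by
  linear_combination (p * s - q * r) ^ 2 * hn + n * (p * s - q * r + 1) * hd

/-- the count for a form in terms of a value prime to `n` -/
theorem PN_value {n : ℕ} {a h c : ℤ} (hs : Squarefree n) (h2 : n % 2 = 1) (h5 : ¬ 3 ∣ n)
    (a0 : 0 < a) (hn : 4 * a * c - h ^ 2 = n) : ∃ p q : ℤ,
      IsCoprime (a * p ^ 2 + h * p * q + c * q ^ 2) (n : ℤ) ∧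
      (((∀ l ∈ n.primeFactors, jacobiSym (-((a * p ^ 2 + h * p * q + c * q ^ 2) * 3)) l = 1) ∧
        (PN a h c).ncard = 12 * 2 ^ n.primeFactors.card) ∨
      ((¬ ∀ l ∈ n.primeFactors, jacobiSym (-((a * p ^ 2 + h * p * q + c * q ^ 2) * 3)) l = 1) ∧
        (PN a h c).ncard = 0)) := by
  obtain ⟨p, q, r, s, hd, hpos, hco⟩ := exists_prim hs a0 hn
  refine ⟨p, q, hco, ?_⟩
  rw [ncard_change a h c p q r s hd, t_T3 n _ _ _ hs h2 hpos (disc_change hd hn) hco]
  rcases card_roots_cases hs (by omega) h5 hco with ⟨h6, h7⟩ | ⟨h6, h7⟩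
  · left
    exact ⟨h6, by rw [h7]⟩
  · right
    exact ⟨h6, by rw [h7]⟩

theorem t_T4a : S_T4a := by
  intro n a h c hs h2 h5 a0 hn
  obtain ⟨p, q, _, h6⟩ := PN_value hs h2 h5 a0 hn
  rcases h6 with ⟨_, h7⟩ | ⟨_, h7⟩
  · right; exact h7
  · left; exact h7

/-- the class of the values modulo `l` -/
theorem val_class {n l : ℕ} {a h c : ℤ} (hs : Squarefree n) (h2 : n % 2 = 1)
    (hn : 4 * a * c - h ^ 2 = n) (hl : l ∈ n.primeFactors) {p q r s : ℤ}
    (h3 : ¬ (l : ℤ) ∣ a * p ^ 2 + h * p * q + c * q ^ 2)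
    (h4 : ¬ (l : ℤ) ∣ a * r ^ 2 + h * r * s + c * s ^ 2) :
    jacobiSym (-3 * (a * r ^ 2 + h * r * s + c * s ^ 2)) l =
      jacobiSym (-((a * p ^ 2 + h * p * q + c * q ^ 2) * 3)) l := by
  have hl0 := Nat.prime_of_mem_primeFactors hl
  have hl' : Prime (l : ℤ) := Nat.prime_iff_prime_int.1 hl0
  have : Fact l.Prime := ⟨hl0⟩
  have l2 : l ≠ 2 := by
    rintro rfl
    have := Nat.dvd_of_mem_primeFactors hl
    omega
  set A := a * p ^ 2 + h * p * q + c * q ^ 2 with hA
  set B := a * r ^ 2 + h * r * s + c * s ^ 2 with hB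
  set E := 2 * a * p * r + h * (p * s + q * r) + 2 * c * q * s with hE
  have e1 : 4 * A * B = E ^ 2 + n * (p * s - q * r) ^ 2 := by
    rw [hA, hB, hE]
    linear_combination (p * s - q * r) ^ 2 * hn
  have hln : (l : ℤ) ∣ n := by exact_mod_cast Nat.dvd_of_mem_primeFactors hl
  have h2l : ¬ (l : ℤ) ∣ 2 := by
    intro h6
    have h7 : l ∣ 2 := by exact_mod_cast h6
    rw [Nat.prime_dvd_prime_iff_eq hl0 Nat.prime_two] at h7
    exact l2 h7
  have hE0 : ¬ (l : ℤ) ∣ E := by
    intro h6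
    have h7 : (l : ℤ) ∣ 4 * A * B := by
      rw [e1]
      exact dvd_add (dvd_pow h6 two_ne_zero) (hln.mul_right _)
    rcases hl'.dvd_or_dvd h7 with h8 | h8
    · rcases hl'.dvd_or_dvd h8 with h9 | h9
      · have e : (4 : ℤ) = 2 ^ 2 := by norm_num
        rw [e] at h9
        exact h2l (hl'.dvd_of_dvd_pow h9)
      · exact h3 h9
    · exact h4 h8
  have hgc : ∀ x : ℤ, ¬ (l : ℤ) ∣ x → x.gcd l = 1 := by
    intro x hx
    rw [← Int.isCoprime_iff_gcd_eq_one]
    exact ((Prime.coprime_iff_not_dvd hl').2 hx).symm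
  have j1 : jacobiSym (A * B) l = 1 := by
    have j2 : jacobiSym (2 ^ 2 * (A * B)) l = jacobiSym (E ^ 2) l := by
      rw [jacobiSym.mod_left (2 ^ 2 * (A * B)), jacobiSym.mod_left (E ^ 2)]
      congr 1
      have h6 : (l : ℤ) ∣ 2 ^ 2 * (A * B) - E ^ 2 := by
        have e : 2 ^ 2 * (A * B) - E ^ 2 = n * (p * s - q * r) ^ 2 := by linear_combination e1
        rw [e]
        exact hln.mul_right _
      exact Int.emod_eq_emod_iff_emod_sub_eq_zero.2 (Int.emod_eq_zero_of_dvd h6)
    rw [jacobiSym.mul_left, jacobiSym.sq_one' (hgc 2 h2l), one_mul, jacobiSym.sq_one' (hgc E hE0)] at j2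
    exact j2
  have j3 : jacobiSym (-(A * 3)) l = jacobiSym (-3) l * jacobiSym A l := by
    rw [← jacobiSym.mul_left]
    congr 1
    ring
  rw [jacobiSym.mul_left, j3]
  rw [jacobiSym.mul_left] at j1
  have j4 := jacobiSym.sq_one (hgc A h3)
  congr 1
  calc jacobiSym B l = jacobiSym A l ^ 2 * jacobiSym B l := by rw [j4, one_mul]
    _ = jacobiSym A l * (jacobiSym A l * jacobiSym B l) := by ring
    _ = jacobiSym A l := by rw [j1, mul_one]

theorem t_T4b : S_T4b := by
  intro n b c' a h c hs h2 h5 a0 hn hbc hb hc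
  obtain ⟨r, s, hrs⟩ := hb
  obtain ⟨r', s', hrs'⟩ := hc
  obtain ⟨p, q, hco, h6⟩ := PN_value hs h2 h5 a0 hn
  have hcop : Nat.Coprime b c' := Nat.coprime_of_squarefree_mul (hbc ▸ hs)
  have n0 : 0 < n := Nat.pos_of_ne_zero hs.ne_zero
  have hval : ∀ l ∈ n.primeFactors, ¬ (l : ℤ) ∣ a * p ^ 2 + h * p * q + c * q ^ 2 := by
    intro l hl h7
    have hln : (l : ℤ) ∣ n := by exact_mod_cast Nat.dvd_of_mem_primeFactors hl
    exact (Nat.prime_iff_prime_int.1 (Nat.prime_of_mem_primeFactors hl)).not_unit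
      (hco.isUnit_of_dvd' h7 hln)
  have hSl : Slk 3 b c' ↔ ∀ l ∈ n.primeFactors,
      jacobiSym (-((a * p ^ 2 + h * p * q + c * q ^ 2) * 3)) l = 1 := by
    have k1 : ∀ l ∈ c'.primeFactors, jacobiSym (-((3 : ℕ) : ℤ) * (b : ℤ)) l =
        jacobiSym (-((a * p ^ 2 + h * p * q + c * q ^ 2) * 3)) l := by
      intro l hl
      have hl0 := Nat.prime_of_mem_primeFactors hl
      have hln : l ∈ n.primeFactors := Nat.mem_primeFactors.2 ⟨hl0, by
        rw [← hbc]
        exact (Nat.dvd_of_mem_primeFactors hl).mul_left b, n0.ne'⟩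
      rw [← hrs]
      refine val_class hs h2 hn hln (hval l hln) ?_
      rw [hrs]
      intro h7
      have h8 : l ∣ b := by exact_mod_cast h7
      exact hl0.one_lt.ne' (Nat.eq_one_of_dvd_coprimes hcop h8 (Nat.dvd_of_mem_primeFactors hl))
    have k2 : ∀ l ∈ b.primeFactors, jacobiSym (-((3 : ℕ) : ℤ) * (c' : ℤ)) l =
        jacobiSym (-((a * p ^ 2 + h * p * q + c * q ^ 2) * 3)) l := by
      intro l hl
      have hl0 := Nat.prime_of_mem_primeFactors hl
      have hln : l ∈ n.primeFactors := Nat.mem_primeFactors.2 ⟨hl0, by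
        rw [← hbc]
        exact (Nat.dvd_of_mem_primeFactors hl).mul_right c', n0.ne'⟩
      rw [← hrs']
      refine val_class hs h2 hn hln (hval l hln) ?_
      rw [hrs']
      intro h7
      have h8 : l ∣ c' := by exact_mod_cast h7
      exact hl0.one_lt.ne' (Nat.eq_one_of_dvd_coprimes hcop (Nat.dvd_of_mem_primeFactors hl) h8)
    constructor
    · rintro ⟨s1, s2⟩ l hl
      have hl0 := Nat.prime_of_mem_primeFactors hl
      have h7 : l ∣ b * c' := by rw [hbc]; exact Nat.dvd_of_mem_primeFactors hl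
      have hb0 : b ≠ 0 := by
        rintro rfl
        rw [zero_mul] at hbc
        omega
      have hc0 : c' ≠ 0 := by
        rintro rfl
        rw [mul_zero] at hbc
        omega
      rcases (Nat.Prime.dvd_mul hl0).1 h7 with h8 | h8
      · have h9 : l ∈ b.primeFactors := Nat.mem_primeFactors.2 ⟨hl0, h8, hb0⟩
        rw [← k2 l h9]
        exact s2 l h9
      · have h9 : l ∈ c'.primeFactors := Nat.mem_primeFactors.2 ⟨hl0, h8, hc0⟩
        rw [← k1 l h9]
        exact s1 l h9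
    · intro hall
      constructor
      · intro l hl
        rw [k1 l hl]
        refine hall l (Nat.mem_primeFactors.2 ⟨Nat.prime_of_mem_primeFactors hl, ?_, n0.ne'⟩)
        rw [← hbc]
        exact (Nat.dvd_of_mem_primeFactors hl).mul_left b
      · intro l hl
        rw [k2 l hl]
        refine hall l (Nat.mem_primeFactors.2 ⟨Nat.prime_of_mem_primeFactors hl, ?_, n0.ne'⟩)
        rw [← hbc]
        exact (Nat.dvd_of_mem_primeFactors hl).mul_right c'
  rw [hSl]
  rcases h6 with ⟨h7, h8⟩ | ⟨h7, h8⟩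
  · exact ⟨fun _ => h7, fun _ => h8⟩
  · constructor
    · intro h9
      rw [h8] at h9
      have : 0 < 12 * 2 ^ n.primeFactors.card := by positivity
      omega
    · intro h9
      exact absurd h9 h7

end Run7.h238.P21
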