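import Pool.Agent.Run7.h238.P21.Cnt

/-!
# The bijection between the pairs of vectors and the frames with parameters
-/

set_option autoImplicit false

namespace Run7.h238.P21

open Matrix hiding vec
open Pool.Agent.N969.P15 (V3)
open Pool.Agent.Run7.h843.P21 (ip vec cp)

/-- the invariant `z` of a frame -/
def zz (x y w : V3) : ℤ := nn x x * nn y w - nn x w * nn x y

/-- normalized frames -/
structure FP (n b D e : ℤ) (x y w : V3) : Prop where
  tp1 : tp x y w = 1
  e0 : 0 < e
  hD : 6 * nn x x * e ^ 2 = D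
  h0 : 0 ≤ nn x y
  h1 : nn x y < nn x x
  g0 : 0 ≤ nn x w
  g1 : nn x w < nn x x
  z0 : 0 ≤ zz x y w
  z1 : zz x y w < n
  hn : nn x x * nn y y - nn x y ^ 2 = n
  bz : n ∣ e * zz x y w + b

theorem cr_pair (x y w : V3) (e μ : ℤ) :
    cr (cr x y) (e • cr w x + μ • cr x y) = (-(e * tp x y w)) • x := by
  refine ext3 ?_ ?_ ?_ <;>
    simp only [Pi.add_apply, Pi.smul_apply, smul_eq_mul, tp, dt, cr0, cr1, cr2] <;> ring

theorem nn_add (x y w : V3) (r : ℤ) : nn x (y + r • w) = nn x y + r * nn x w := by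
  simp only [nn, Pi.add_apply, Pi.smul_apply, smul_eq_mul]
  ring

theorem nn_add_left (x y w : V3) (r : ℤ) : nn (y + r • w) x = nn y x + r * nn w x := by
  simp only [nn, Pi.add_apply, Pi.smul_apply, smul_eq_mul]
  ring

theorem zz_add_y (x y w : V3) (r : ℤ) :
    zz x y (w + r • y) = zz x y w + r * (nn x x * nn y y - nn x y ^ 2) := by
  unfold zz
  rw [nn_add, nn_add]
  ring

theorem zz_add_x (x y w : V3) (r : ℤ) : zz x y (w + r • x) = zz x y w := by
  unfold zz
  rw [nn_add, nn_add, nn_comm y x]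
  ring

theorem dt_smul (c x : V3) (r : ℤ) : dt c (r • x) = r * dt c x := by
  simp only [dt, Pi.smul_apply, smul_eq_mul]
  ring

theorem zero_of_range {m u v r : ℤ} (h0 : 0 ≤ u) (h1 : u < m) (h2 : 0 ≤ v) (h3 : v < m)
    (h : v = u + r * m) : r = 0 := by
  by_contra hc
  rcases lt_or_gt_of_ne hc with h4 | h4
  · nlinarith
  · nlinarith

theorem inj_frames {n b D e e' : ℤ} {x y w x' y' w' : V3} {μ μ' : ℤ} (h : FP n b D e x y w)
    (h' : FP n b D e' x' y' w') (hv : cr x y = cr x' y')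
    (hw : e • cr w x + μ • cr x y = e' • cr w' x' + μ' • cr x' y') :
    e = e' ∧ x = x' ∧ y = y' ∧ w = w' := by
  have k1 := cr_pair x y w e μ
  have k2 := cr_pair x' y' w' e' μ'
  rw [← hw, ← hv, k1, h.tp1, h'.tp1, mul_one, mul_one] at k2
  -- k2 : -e • x = -e' • x'
  have c1 : dt (cr y w) x = 1 := by
    have := h.tp1
    simp only [tp, dt, cr0, cr1, cr2] at this ⊢
    linarith
  have c2 : dt (cr y' w') x' = 1 := by
    have := h'.tp1
    simp only [tp, dt, cr0, cr1, cr2] at this ⊢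
    linarith
  have d1 : e' ∣ e := by
    refine ⟨dt (cr y w) x', ?_⟩
    have := congrArg (dt (cr y w)) k2
    rw [dt_smul, dt_smul, c1] at this
    linarith
  have d2 : e ∣ e' := by
    refine ⟨dt (cr y' w') x, ?_⟩
    have := congrArg (dt (cr y' w')) k2
    rw [dt_smul, dt_smul, c2] at this
    linarith
  have he : e = e' := Int.dvd_antisymm h.e0.le h'.e0.le d2 d1
  subst he
  have e0 := h.e0
  have hx : x = x' := by
    have hne : (-e : ℤ) ≠ 0 := by omega
    funext i
    have := congrFun k2 i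
    simp only [Pi.smul_apply, smul_eq_mul] at this
    exact mul_left_cancel₀ hne this
  subst hx
  -- y' = y + r x
  obtain ⟨r, hr⟩ : ∃ r : ℤ, y' = y + r • x := by
    refine ⟨dt (cr y w) (y' - y), ?_⟩
    have a0 := congrFun hv 0
    have a1 := congrFun hv 1
    have a2 := congrFun hv 2
    simp only [dt, cr0, cr1, cr2] at a0 a1 a2 c1
    refine ext3 ?_ ?_ ?_ <;>
      simp only [Pi.add_apply, Pi.smul_apply, Pi.sub_apply, smul_eq_mul, dt, cr0, cr1, cr2]
    · linear_combination (y 0 - y' 0) * c1 + (y 2 * w 0 - y 0 * w 2) * a2 - (y 0 * w 1 - y 1 * w 0) * a1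
    · linear_combination (y 1 - y' 1) * c1 + (y 0 * w 1 - y 1 * w 0) * a0 - (y 1 * w 2 - y 2 * w 1) * a2
    · linear_combination (y 2 - y' 2) * c1 + (y 1 * w 2 - y 2 * w 1) * a1 - (y 2 * w 0 - y 0 * w 2) * a0
  have r0 : r = 0 := by
    refine zero_of_range h.h0 h.h1 h'.h0 h'.h1 ?_
    rw [hr, nn_add]
  rw [r0, zero_smul, add_zero] at hr
  subst hr
  obtain ⟨s, t, hst⟩ : ∃ s t : ℤ, w' = w + s • x + t • y' := by
    refine ⟨dt (w' - w) (cr y' w), dt (w' - w) (cr w x), ?_⟩
    have e1 := bas_exp h.tp1 (w' - w)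
    have e2 : dt (w' - w) (cr x y') = 0 := by
      have f1 := h.tp1
      have f2 := h'.tp1
      simp only [tp, dt, Pi.sub_apply] at f1 f2 ⊢
      linarith
    rw [e2, zero_smul, add_zero] at e1
    rw [add_assoc, ← e1]
    abel
  have t0 : t = 0 := by
    refine zero_of_range h.z0 h.z1 h'.z0 h'.z1 ?_
    have hn := h.hn
    rw [← hn]
    unfold zz
    rw [hst, nn_add, nn_add, nn_add, nn_add, nn_comm y' x]
    ring
  rw [t0, zero_smul, add_zero] at hst
  have s0 : s = 0 := by
    refine zero_of_range h.g0 h.g1 h'.g0 h'.g1 ?_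
    rw [hst, nn_add]
  rw [s0, zero_smul, add_zero] at hst
  exact ⟨rfl, rfl, rfl, hst.symm⟩

theorem even_nn (x : V3) : ∃ a : ℤ, nn x x = 2 * a := by
  refine ⟨x 0 ^ 2 + x 1 ^ 2 + x 2 ^ 2 - x 0 * x 2, ?_⟩
  unfold nn
  ring

theorem surj_frames {n n2 b D : ℤ} (hs : Squarefree n) (n0 : 0 < n) (hD : 0 < D)
    (hDD : D = n * n2 - b ^ 2) {v u : V3} (hv : ip v v = n) (hu : ip u u = n2) (hvu : ip v u = b) :
    ∃ (e μ : ℤ) (x y w : V3), FP n b D e x y w ∧ v = cr x y ∧ u = e • cr w x + μ • cr x y := by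
  have v0 : v ≠ 0 := by
    rintro rfl
    simp [ip] at hv
    omega
  obtain ⟨d, d0, v', c2, e1, hc2⟩ := prim_dec v v0
  have d1 : d = 1 := by
    have h1 : n = d * d * ip v' v' := by
      rw [← hv, e1]
      simp only [ip, Pi.smul_apply, smul_eq_mul]
      ring
    have h2 := hs d ⟨_, h1⟩
    rcases Int.isUnit_iff.1 h2 with h3 | h3 <;> omega
  subst d1
  rw [one_smul] at e1
  subst e1
  have hq : 6 * nn (cr v u) (cr v u) = D := by
    rw [nn_cr, hv, hu, hvu, hDD]
  have q0 : cr v u ≠ 0 := by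
    intro h
    rw [h] at hq
    simp [nn] at hq
    omega
  obtain ⟨e, e0, g, c, hg, hc⟩ := prim_dec _ q0
  -- x = - g
  set x : V3 := -g with hx
  have hgx : cr v u = (-e) • x := by
    rw [hg, hx]
    simp
  have hc1 : dt (-c) x = 1 := by
    have := hc
    simp only [dt, hx, Pi.neg_apply] at this ⊢
    linarith
  set c1 : V3 := -c with hc1'
  have vx : dt v x = 0 := by
    have h1 : dt v (cr v u) = 0 := by
      simp only [dt, cr0, cr1, cr2]
      ring
    rw [hgx, dt_smul] at h1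
    rcases mul_eq_zero.1 h1 with h2 | h2
    · omega
    · exact h2
  have ux : dt u x = 0 := by
    have h1 : dt u (cr v u) = 0 := by
      simp only [dt, cr0, cr1, cr2]
      ring
    rw [hgx, dt_smul] at h1
    rcases mul_eq_zero.1 h1 with h2 | h2
    · omega
    · exact h2
  have xx0 : 6 * nn x x * e ^ 2 = D := by
    rw [← hq, hgx]
    simp only [nn, Pi.smul_apply, smul_eq_mul]
    ring
  have xpos : 0 < nn x x := by
    by_contra hc'
    push Not at hc'
    nlinarith [sq_nonneg e]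
  -- the first choice of y, w
  have y0 : cr x (cr v c1) = v := by
    refine ext3 ?_ ?_ ?_ <;> simp only [dt, cr0, cr1, cr2] at hc1 vx ⊢
    · linear_combination (v 0) * hc1 - (c1 0) * vx
    · linear_combination (v 1) * hc1 - (c1 1) * vx
    · linear_combination (v 2) * hc1 - (c1 2) * vx
  -- normalize y
  set y : V3 := cr v c1 + (-(nn x (cr v c1) / nn x x)) • x with hy
  have xy : cr x y = v := by
    rw [← y0, hy]
    refine ext3 ?_ ?_ ?_ <;>
      simp only [Pi.add_apply, Pi.smul_apply, smul_eq_mul, cr0, cr1, cr2] <;> ring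
  have nxy : nn x y = nn x (cr v c1) % nn x x := by
    rw [hy, nn_add, Int.emod_def]
    ring
  have hn : nn x x * nn y y - nn x y ^ 2 = n := by
    rw [← hv, ← xy, ip_cr, nn_comm y x]
    ring
  -- normalize w
  set w1 : V3 := c2 + (-(zz x y c2 / n)) • y with hw1
  have zw1 : zz x y w1 = zz x y c2 % n := by
    have h1 : zz x y w1 = zz x y c2 + (-(zz x y c2 / n)) * n := by
      rw [hw1, zz_add_y, hn]
    rw [h1, Int.emod_def]
    ring
  set w : V3 := w1 + (-(nn x w1 / nn x x)) • x with hw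
  have zw : zz x y w = zz x y c2 % n := by
    rw [← zw1, hw, zz_add_x]
  have nxw : nn x w = nn x w1 % nn x x := by
    rw [hw, nn_add, Int.emod_def]
    ring
  have htp : tp x y w = 1 := by
    have h1 : tp x y w = dt v c2 := by
      rw [← xy]
      simp only [tp, hw, hw1, dt, Pi.add_apply, Pi.smul_apply, smul_eq_mul, cr0, cr1, cr2]
      ring
    rw [h1, ← hc2]
    simp only [dt]
    ring
  have hu2 := dual_exp htp u
  rw [ux, zero_smul, zero_add] at hu2
  have huy : dt u y = e := by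
    have h1 : cr v u = (-(dt u y)) • x := by
      conv_lhs => rw [hu2, ← xy]
      rw [cr_pair, htp, mul_one]
    rw [hgx] at h1
    have h2 := congrArg (dt c1) h1
    rw [dt_smul, dt_smul, hc1] at h2
    linarith
  rw [huy] at hu2
  have hb : b = -(e * zz x y w) + dt u w * n := by
    rw [← hvu]
    conv_lhs => rw [hu2, ← xy]
    have h1 : ip (cr x y) (e • cr w x + dt u w • cr x y) =
        e * ip (cr x y) (cr w x) + dt u w * ip (cr x y) (cr x y) := by
      simp only [ip, Pi.add_apply, Pi.smul_apply, smul_eq_mul]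
      ring
    rw [h1, ip_cr, ip_cr, nn_comm y x, ← hn]
    unfold zz
    ring
  refine ⟨e, dt u w, x, y, w, ⟨htp, e0, xx0, ?_, ?_, ?_, ?_, ?_, ?_, hn, ?_⟩, xy.symm, hu2⟩
  · rw [nxy]
    exact Int.emod_nonneg _ xpos.ne'
  · rw [nxy]
    exact Int.emod_lt_of_pos _ xpos
  · rw [nxw]
    exact Int.emod_nonneg _ xpos.ne'
  · rw [nxw]
    exact Int.emod_lt_of_pos _ xpos
  · rw [zw]
    exact Int.emod_nonneg _ n0.ne'
  · rw [zw]
    exact Int.emod_lt_of_pos _ n0
  · exact ⟨dt u w, by rw [hb]; ring⟩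

end Run7.h238.P21
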