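import Mathlib
import Pool.Agent.Run7.h843.P21.Defs

/-!
# Class number one of the even ternary lattice of determinant six, and its twelve rotations
-/

set_option autoImplicit false

namespace Run7.h238.P21

open Matrix

abbrev M3 := Matrix (Fin 3) (Fin 3) ℤ

/-- the Gram matrix of the even ternary lattice -/
def NN : M3 := !![2,0,-1;0,2,0;-1,0,2]

/-- proper equivalence -/
def Eqv (M G : M3) : Prop := ∃ U : M3, U.det = 1 ∧ G = U * M * Uᵀ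

theorem Eqv.refl (M : M3) : Eqv M M := ⟨1, by simp, by simp⟩

theorem Eqv.trans {M G H : M3} (h1 : Eqv M G) (h2 : Eqv G H) : Eqv M H := by
  obtain ⟨U, u1, rfl⟩ := h1
  obtain ⟨V, v1, rfl⟩ := h2
  refine ⟨V * U, by rw [Matrix.det_mul, u1, v1]; norm_num, ?_⟩
  rw [Matrix.transpose_mul]
  simp only [Matrix.mul_assoc]

/-- even positive definite forms of determinant six -/
structure Gd (M : M3) : Prop where
  sym : Mᵀ = M
  ev : ∀ x : Fin 3 → ℤ, Even (x ⬝ᵥ (M *ᵥ x))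
  pos : ∀ x : Fin 3 → ℤ, x ≠ 0 → 0 < x ⬝ᵥ (M *ᵥ x)
  det : M.det = 6

theorem quad_trans (M U : M3) (x : Fin 3 → ℤ) :
    x ⬝ᵥ ((U * M * Uᵀ) *ᵥ x) = (x ᵥ* U) ⬝ᵥ (M *ᵥ (x ᵥ* U)) := by
  rw [← Matrix.mulVec_mulVec, ← Matrix.mulVec_mulVec, Matrix.mulVec_transpose,
    Matrix.dotProduct_mulVec]

theorem Gd.eqv {M G : M3} (h : Gd M) (he : Eqv M G) : Gd G := by
  obtain ⟨U, u1, rfl⟩ := he
  refine ⟨?_, ?_, ?_, ?_⟩
  · rw [Matrix.transpose_mul, Matrix.transpose_mul, Matrix.transpose_transpose, h.sym,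
      Matrix.mul_assoc]
  · intro x
    rw [quad_trans]
    exact h.ev _
  · intro x hx
    rw [quad_trans]
    refine h.pos _ ?_
    intro h0
    exact hx (Matrix.eq_zero_of_vecMul_eq_zero (by rw [u1]; norm_num) h0)
  · rw [Matrix.det_mul, Matrix.det_mul, Matrix.det_transpose, u1, h.det]
    norm_num

/-- the second minor -/
def dd (G : M3) : ℤ := G 0 0 * G 1 1 - G 0 1 ^ 2

theorem Gd.s01 {G : M3} (h : Gd G) : G 1 0 = G 0 1 := by
  have := congrFun (congrFun h.sym 0) 1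
  simpa using this

theorem Gd.s02 {G : M3} (h : Gd G) : G 2 0 = G 0 2 := by
  have := congrFun (congrFun h.sym 0) 2
  simpa using this

theorem Gd.s12 {G : M3} (h : Gd G) : G 2 1 = G 1 2 := by
  have := congrFun (congrFun h.sym 1) 2
  simpa using this

theorem Gd.e0 {G : M3} (h : Gd G) : Even (G 0 0) := by
  have := h.ev ![1, 0, 0]
  simpa [dotProduct, Matrix.mulVec, Fin.sum_univ_three] using this

theorem Gd.e1 {G : M3} (h : Gd G) : Even (G 1 1) := by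
  have := h.ev ![0, 1, 0]
  simpa [dotProduct, Matrix.mulVec, Fin.sum_univ_three] using this

theorem Gd.e2 {G : M3} (h : Gd G) : Even (G 2 2) := by
  have := h.ev ![0, 0, 1]
  simpa [dotProduct, Matrix.mulVec, Fin.sum_univ_three] using this

theorem Gd.p0 {G : M3} (h : Gd G) : 0 < G 0 0 := by
  have := h.pos ![1, 0, 0] (by
    intro h0
    have := congrFun h0 0
    simp at this)
  simpa [dotProduct, Matrix.mulVec, Fin.sum_univ_three] using this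

theorem Gd.p1 {G : M3} (h : Gd G) : 0 < dd G := by
  have h0 := h.p0
  have := h.pos ![-(G 0 1), G 0 0, 0] (by
    intro h1
    have := congrFun h1 1
    simp at this
    omega)
  simp [dotProduct, Matrix.mulVec, Fin.sum_univ_three, h.s01] at this
  have e : 0 < G 0 0 * dd G := by
    unfold dd
    linarith
  exact (pos_iff_pos_of_mul_pos e).1 h0

theorem Gd.dt {G : M3} (h : Gd G) :
    dd G * (G 0 0 * G 2 2 - G 0 2 ^ 2) - (G 0 0 * G 1 2 - G 0 1 * G 0 2) ^ 2 = 6 * G 0 0 := by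
  have h1 := h.det
  rw [Matrix.det_fin_three, h.s01, h.s02, h.s12] at h1
  unfold dd
  linear_combination (G 0 0) * h1

/-- swap of the first two vectors -/
theorem eqv_sw1 {G : M3} (h : Gd G) :
    Eqv G !![G 1 1, -G 0 1, G 1 2; -G 0 1, G 0 0, -G 0 2; G 1 2, -G 0 2, G 2 2] := by
  refine ⟨!![0,1,0;-1,0,0;0,0,1], by simp [Matrix.det_fin_three], ?_⟩
  ext i j
  fin_cases i <;> fin_cases j <;>
    simp [Matrix.mul_apply, Matrix.vecMul, dotProduct, Fin.sum_univ_three, h.s01, h.s02, h.s12]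

/-- swap of the last two vectors -/
theorem eqv_sw2 {G : M3} (h : Gd G) :
    Eqv G !![G 0 0, G 0 2, -G 0 1; G 0 2, G 2 2, -G 1 2; -G 0 1, -G 1 2, G 1 1] := by
  refine ⟨!![1,0,0;0,0,1;0,-1,0], by simp [Matrix.det_fin_three], ?_⟩
  ext i j
  fin_cases i <;> fin_cases j <;>
    simp [Matrix.mul_apply, Matrix.vecMul, dotProduct, Fin.sum_univ_three, h.s01, h.s02, h.s12]

/-- the second vector changed -/
theorem eqv_t1 {G : M3} (h : Gd G) (t : ℤ) :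
    ∃ H : M3, Eqv G H ∧ H 0 0 = G 0 0 ∧ dd H = dd G ∧ H 0 1 = G 0 1 + t * G 0 0 := by
  refine ⟨_, ⟨!![1,0,0;t,1,0;0,0,1], by simp [Matrix.det_fin_three], rfl⟩, ?_, ?_, ?_⟩
  · simp [Matrix.mul_apply, Matrix.vecMul, dotProduct, Fin.sum_univ_three]
  · simp [dd, Matrix.mul_apply, Matrix.vecMul, dotProduct, Fin.sum_univ_three, h.s01]
    ring
  · simp [Matrix.mul_apply, Matrix.vecMul, dotProduct, Fin.sum_univ_three]
    ring

/-- the third vector changed -/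
theorem eqv_t2 {G : M3} (h : Gd G) (s t : ℤ) :
    ∃ H : M3, Eqv G H ∧ H 0 0 = G 0 0 ∧ dd H = dd G ∧ H 0 1 = G 0 1 ∧
      H 0 2 = G 0 2 + s * G 0 0 + t * G 0 1 ∧
      H 0 0 * H 1 2 - H 0 1 * H 0 2 = G 0 0 * G 1 2 - G 0 1 * G 0 2 + t * dd G := by
  refine ⟨_, ⟨!![1,0,0;0,1,0;s,t,1], by simp [Matrix.det_fin_three], rfl⟩, ?_, ?_, ?_, ?_, ?_⟩
  · simp [Matrix.mul_apply, Matrix.vecMul, dotProduct, Fin.sum_univ_three]
  · simp [dd, Matrix.mul_apply, Matrix.vecMul, dotProduct, Fin.sum_univ_three]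
  · simp [Matrix.mul_apply, Matrix.vecMul, dotProduct, Fin.sum_univ_three]
  · simp [Matrix.mul_apply, Matrix.vecMul, dotProduct, Fin.sum_univ_three]
    ring
  · simp [dd, Matrix.mul_apply, Matrix.vecMul, dotProduct, Fin.sum_univ_three, h.s01]
    ring

theorem round (x m : ℤ) (hm : 0 < m) : ∃ t : ℤ, -m ≤ 2 * (x + t * m) ∧ 2 * (x + t * m) ≤ m := by
  refine ⟨-((2 * x + m) / (2 * m)), ?_, ?_⟩
  · have h1 := Int.emod_add_mul_ediv (2 * x + m) (2 * m)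
    have h2 := Int.emod_nonneg (2 * x + m) (show (2 * m : ℤ) ≠ 0 by omega)
    nlinarith
  · have h1 := Int.emod_add_mul_ediv (2 * x + m) (2 * m)
    have h2 := Int.emod_lt_of_pos (2 * x + m) (show (0 : ℤ) < 2 * m by omega)
    nlinarith

theorem exists_min {M : M3} (h : Gd M) : ∃ G, Eqv M G ∧ (∀ G', Eqv M G' → G 0 0 ≤ G' 0 0) ∧
    (∀ G', Eqv M G' → G' 0 0 = G 0 0 → dd G ≤ dd G') := by
  obtain ⟨G1, h1, m1⟩ : ∃ G, Eqv M G ∧ ∀ G', Eqv M G' → G 0 0 ≤ G' 0 0 := by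
    have hne : ({G : M3 | Eqv M G}).Nonempty := ⟨M, Eqv.refl M⟩
    obtain ⟨G, hG, hm⟩ := WellFounded.has_min (InvImage.wf (fun G : M3 => (G 0 0).toNat)
      Nat.lt_wfRel.wf) _ hne
    refine ⟨G, hG, fun G' hG' => ?_⟩
    have h2 := hm G' hG'
    have h3 := (h.eqv hG).p0
    have h4 := (h.eqv hG').p0
    have h5 : ¬ (G' 0 0).toNat < (G 0 0).toNat := h2
    omega
  have hne : ({G : M3 | Eqv M G ∧ G 0 0 = G1 0 0}).Nonempty := ⟨G1, h1, rfl⟩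
  obtain ⟨G, hG, hm⟩ := WellFounded.has_min (InvImage.wf (fun G : M3 => (dd G).toNat)
    Nat.lt_wfRel.wf) _ hne
  refine ⟨G, hG.1, fun G' hG' => ?_, fun G' hG' he => ?_⟩
  · rw [hG.2]
    exact m1 G' hG'
  · have h2 := hm G' ⟨hG', by rw [he, hG.2]⟩
    have h3 := (h.eqv hG.1).p1
    have h4 := (h.eqv hG').p1
    have h5 : ¬ (dd G').toNat < (dd G).toNat := h2
    omega

theorem exists_red {M : M3} (h : Gd M) : ∃ G, Eqv M G ∧ G 0 0 ≤ G 1 1 ∧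
    dd G ≤ G 0 0 * G 2 2 - G 0 2 ^ 2 ∧ -G 0 0 ≤ 2 * G 0 1 ∧ 2 * G 0 1 ≤ G 0 0 ∧
    -G 0 0 ≤ 2 * G 0 2 ∧ 2 * G 0 2 ≤ G 0 0 ∧ -dd G ≤ 2 * (G 0 0 * G 1 2 - G 0 1 * G 0 2) ∧
    2 * (G 0 0 * G 1 2 - G 0 1 * G 0 2) ≤ dd G := by
  obtain ⟨G1, h1, m1, m2⟩ := exists_min h
  have g1 := h.eqv h1
  obtain ⟨t1, a1, a2⟩ := round (G1 0 1) (G1 0 0) g1.p0
  obtain ⟨G2, h2, b1, b2, b3⟩ := eqv_t1 g1 t1
  have g2 := g1.eqv h2
  obtain ⟨t2, a3, a4⟩ := round (G2 0 0 * G2 1 2 - G2 0 1 * G2 0 2) (dd G2) g2.p1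
  obtain ⟨t3, a5, a6⟩ := round (G2 0 2 + t2 * G2 0 1) (G2 0 0) g2.p0
  obtain ⟨G3, h3, c1, c2, c3, c4, c5⟩ := eqv_t2 g2 t3 t2
  have g3 := g2.eqv h3
  have h13 : Eqv M G3 := (h1.trans h2).trans h3
  refine ⟨G3, h13, ?_, ?_, ?_, ?_, ?_, ?_, ?_, ?_⟩
  · have k := m1 _ (h13.trans (eqv_sw1 g3))
    have k2 : G1 0 0 ≤ G3 1 1 := k
    rw [c1, b1]
    exact k2
  · have k := m2 _ (h13.trans (eqv_sw2 g3)) (by
      show G3 0 0 = G1 0 0
      rw [c1, b1])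
    have k2 : dd G1 ≤ G3 0 0 * G3 2 2 - G3 0 2 ^ 2 := k
    rw [c2, b2]
    exact k2
  · rw [c1, c3, b1, b3]
    exact a1
  · rw [c1, c3, b1, b3]
    exact a2
  · rw [c1, c4]
    linarith
  · rw [c1, c4]
    linarith
  · rw [c2, c5]
    exact a3
  · rw [c2, c5]
    exact a4

theorem fin_cases_red {p q r s t u : ℤ} (hp : Even p) (hs : Even s) (hu : Even u) (p0 : 0 < p)
    (hdt : (p * s - q ^ 2) * (p * u - r ^ 2) - (p * t - q * r) ^ 2 = 6 * p)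
    (h1 : p ≤ s) (h2 : p * s - q ^ 2 ≤ p * u - r ^ 2) (h3 : -p ≤ 2 * q) (h4 : 2 * q ≤ p)
    (h5 : -p ≤ 2 * r) (h6 : 2 * r ≤ p) (h7 : -(p * s - q ^ 2) ≤ 2 * (p * t - q * r))
    (h8 : 2 * (p * t - q * r) ≤ p * s - q ^ 2) :
    p = 2 ∧ s = 2 ∧ u = 2 ∧ (((q = 1 ∨ q = -1) ∧ r = 0 ∧ t = 0) ∨ (q = 0 ∧ (r = 1 ∨ r = -1) ∧ t = 0) ∨
      (q = 0 ∧ r = 0 ∧ (t = 1 ∨ t = -1))) := by
  have e1 : 4 * (q ^ 2) ≤ p ^ 2 := by nlinarith
  have e2 : 3 * p ^ 2 ≤ 4 * (p * s - q ^ 2) := by nlinarith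
  set k := p * s - q ^ 2 with hk
  set l := p * u - r ^ 2 with hl
  set j := p * t - q * r with hj
  have e3 : 4 * j ^ 2 ≤ k ^ 2 := by nlinarith
  have e4 : 3 * k ^ 2 ≤ 24 * p := by nlinarith
  have e5 : p < 4 := by
    by_contra hc
    push Not at hc
    have e6 : 48 ≤ 4 * k := by nlinarith
    have e7 : 3 * p ^ 2 * 12 ≤ 4 * k * k := by nlinarith
    nlinarith
  obtain ⟨p', rfl⟩ := hp
  have e6 : p' = 1 := by omega
  subst e6
  obtain ⟨s', rfl⟩ := hs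
  obtain ⟨u', rfl⟩ := hu
  have q1 : -1 ≤ q := by omega
  have q2 : q ≤ 1 := by omega
  have r1 : -1 ≤ r := by omega
  have r2 : r ≤ 1 := by omega
  have k1 : k ≤ 4 := by nlinarith
  have j1 : -2 ≤ j := by omega
  have j2 : j ≤ 2 := by omega
  have hk' : k = 4 * s' - q ^ 2 := by rw [hk]; ring
  have hl' : l = 4 * u' - r ^ 2 := by rw [hl]; ring
  have hj' : j = 2 * t - q * r := by rw [hj]; ring
  have s1 : 1 ≤ s' := by omega
  interval_cases q <;> interval_cases r <;> simp at hk' hl' hj' <;>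
    (have hs' : s' = 1 := by omega) <;> subst hs' <;> simp at hk' <;> rw [hk'] at hdt k1 h7 h8 <;>
    interval_cases j <;> simp at hdt <;> omega

theorem sol8 {q r t : ℤ} (h : ((q = 1 ∨ q = -1) ∧ r = 0 ∧ t = 0) ∨
      (q = 0 ∧ (r = 1 ∨ r = -1) ∧ t = 0) ∨ (q = 0 ∧ r = 0 ∧ (t = 1 ∨ t = -1))) :
    ∃ A : M3, A.det = 1 ∧ A * NN * Aᵀ = !![2, q, r; q, 2, t; r, t, 2] := by
  rcases h with ⟨rfl | rfl, rfl, rfl⟩ | ⟨rfl, rfl | rfl, rfl⟩ | ⟨rfl, rfl, rfl | rfl⟩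
  · exact ⟨!![-1,0,-1;-1,0,0;0,1,0], by decide, by decide⟩
  · exact ⟨!![-1,0,-1;0,0,1;0,1,0], by decide, by decide⟩
  · exact ⟨!![-1,0,-1;0,-1,0;-1,0,0], by decide, by decide⟩
  · exact ⟨!![-1,0,-1;0,-1,0;0,0,1], by decide, by decide⟩
  · exact ⟨!![0,-1,0;-1,0,-1;0,0,-1], by decide, by decide⟩
  · exact ⟨!![0,-1,0;-1,0,-1;1,0,0], by decide, by decide⟩

/-- class number one -/
theorem exists_frame {M : M3} (h : Gd M) : ∃ A : M3, A * NN * Aᵀ = M ∧ A.det = 1 := by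
  obtain ⟨G, hG, h1, h2, h3, h4, h5, h6, h7, h8⟩ := exists_red h
  have g := h.eqv hG
  obtain ⟨a1, a2, a3, a4⟩ := fin_cases_red g.e0 g.e1 g.e2 g.p0 g.dt h1 h2 h3 h4 h5 h6
    h7 h8
  obtain ⟨A, hA, hA2⟩ := sol8 a4
  have e : G = !![2, G 0 1, G 0 2; G 0 1, 2, G 1 2; G 0 2, G 1 2, 2] := by
    ext i j
    fin_cases i <;> fin_cases j <;> simp [a1, a2, a3, g.s01, g.s02, g.s12]
  rw [← e] at hA2
  obtain ⟨U, u1, u2⟩ := hG
  have u3 : U.adjugate * U = 1 := by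
    rw [Matrix.adjugate_mul, u1, one_smul]
  have u4 : Uᵀ * (U.adjugate)ᵀ = 1 := by
    rw [← Matrix.transpose_mul, u3, Matrix.transpose_one]
  refine ⟨U.adjugate * A, ?_, ?_⟩
  · rw [Matrix.transpose_mul]
    calc U.adjugate * A * NN * (Aᵀ * (U.adjugate)ᵀ) = U.adjugate * (A * NN * Aᵀ) * (U.adjugate)ᵀ := by
          simp only [Matrix.mul_assoc]
      _ = U.adjugate * (U * M * Uᵀ) * (U.adjugate)ᵀ := by rw [hA2, u2]
      _ = (U.adjugate * U) * M * (Uᵀ * (U.adjugate)ᵀ) := by simp only [Matrix.mul_assoc]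
      _ = M := by rw [u3, u4, Matrix.one_mul, Matrix.mul_one]
  · rw [Matrix.det_mul, hA, Matrix.det_adjugate, u1]
    norm_num

/-- the even form -/
def nn (x y : Fin 3 → ℤ) : ℤ := 2 * (x 0 * y 0) + 2 * (x 1 * y 1) + 2 * (x 2 * y 2) -
  (x 0 * y 2 + x 2 * y 0)

theorem gram_entry (A : M3) (i j : Fin 3) : (A * NN * Aᵀ) i j = nn (A i) (A j) := by
  simp [NN, nn, Matrix.mul_apply, Fin.sum_univ_three]
  ring

theorem nn_self (x : Fin 3 → ℤ) : nn x x = x 0 ^ 2 + 2 * x 1 ^ 2 + x 2 ^ 2 + (x 0 - x 2) ^ 2 := by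
  unfold nn
  ring

theorem norm2 {x y z : ℤ} (h : x ^ 2 + 2 * y ^ 2 + z ^ 2 + (x - z) ^ 2 = 2) :
    (y = 0 ∧ ((x = 1 ∧ z = 0) ∨ (x = -1 ∧ z = 0) ∨ (x = 0 ∧ z = 1) ∨ (x = 0 ∧ z = -1) ∨
      (x = 1 ∧ z = 1) ∨ (x = -1 ∧ z = -1))) ∨ (x = 0 ∧ z = 0 ∧ (y = 1 ∨ y = -1)) := by
  have x1 : -1 ≤ x := by nlinarith [sq_nonneg y, sq_nonneg z, sq_nonneg (x - z)]
  have x2 : x ≤ 1 := by nlinarith [sq_nonneg y, sq_nonneg z, sq_nonneg (x - z)]
  have y1 : -1 ≤ y := by nlinarith [sq_nonneg x, sq_nonneg z, sq_nonneg (x - z)]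
  have y2 : y ≤ 1 := by nlinarith [sq_nonneg x, sq_nonneg z, sq_nonneg (x - z)]
  have z1 : -1 ≤ z := by nlinarith [sq_nonneg x, sq_nonneg y, sq_nonneg (x - z)]
  have z2 : z ≤ 1 := by nlinarith [sq_nonneg x, sq_nonneg y, sq_nonneg (x - z)]
  interval_cases x <;> interval_cases y <;> interval_cases z <;> simp at h ⊢

/-- the twelve rotations -/
def Rot : Finset M3 := {!![-1,0,-1;0,-1,0;0,0,1], !![-1,0,-1;0,1,0;1,0,0], !![-1,0,0;0,-1,0;1,0,1],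
  !![-1,0,0;0,1,0;0,0,-1], !![0,0,-1;0,-1,0;-1,0,0], !![0,0,-1;0,1,0;1,0,1],
  !![0,0,1;0,-1,0;1,0,0], !![0,0,1;0,1,0;-1,0,-1], !![1,0,0;0,-1,0;-1,0,-1],
  !![1,0,0;0,1,0;0,0,1], !![1,0,1;0,-1,0;0,0,-1], !![1,0,1;0,1,0;-1,0,0]}

theorem mem_Rot (A : M3) : (A * NN * Aᵀ = NN ∧ A.det = 1) ↔ A ∈ Rot := by
  constructor
  · rintro ⟨h, hd⟩
    have g := fun i j => (gram_entry A i j).symm.trans (congrFun (congrFun h i) j)
    have g00 := g 0 0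
    have g11 := g 1 1
    have g22 := g 2 2
    have g01 := g 0 1
    have g02 := g 0 2
    have g12 := g 1 2
    rw [nn_self] at g00 g11 g22
    have k0 := norm2 (x := A 0 0) (y := A 0 1) (z := A 0 2) g00
    have k1 := norm2 (x := A 1 0) (y := A 1 1) (z := A 1 2) g11
    have k2 := norm2 (x := A 2 0) (y := A 2 1) (z := A 2 2) g22
    unfold nn at g01 g02 g12
    simp only [NN, Matrix.cons_val_zero, Matrix.cons_val_one, Matrix.cons_val, Matrix.of_apply] at g01 g02 g12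
    rw [Matrix.det_fin_three] at hd
    have eA : A = !![A 0 0, A 0 1, A 0 2; A 1 0, A 1 1, A 1 2; A 2 0, A 2 1, A 2 2] := by
      ext i j
      fin_cases i <;> fin_cases j <;> rfl
    rw [eA]
    rcases k0 with ⟨c1, ⟨c0, c2⟩ | ⟨c0, c2⟩ | ⟨c0, c2⟩ | ⟨c0, c2⟩ | ⟨c0, c2⟩ | ⟨c0, c2⟩⟩ |
      ⟨c0, c2, c1 | c1⟩ <;>
    rcases k2 with ⟨b1, ⟨b0, b2⟩ | ⟨b0, b2⟩ | ⟨b0, b2⟩ | ⟨b0, b2⟩ | ⟨b0, b2⟩ | ⟨b0, b2⟩⟩ |
      ⟨b0, b2, b1 | b1⟩ <;>
    simp only [b0, b1, b2, c0, c1, c2] at g02 <;> norm_num at g02 <;>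
    rcases k1 with ⟨a1, ⟨a0, a2⟩ | ⟨a0, a2⟩ | ⟨a0, a2⟩ | ⟨a0, a2⟩ | ⟨a0, a2⟩ | ⟨a0, a2⟩⟩ |
      ⟨a0, a2, a1 | a1⟩ <;>
    simp only [a0, a1, a2, c0, c1, c2] at g01 <;> norm_num at g01 <;>
    simp only [a0, a1, a2, b0, b1, b2] at g12 <;> norm_num at g12 <;>
    simp only [a0, a1, a2, b0, b1, b2, c0, c1, c2] at hd ⊢ <;> norm_num at hd <;>
    decide
  · intro h
    simp only [Rot, Finset.mem_insert, Finset.mem_singleton] at h
    rcases h with rfl | rfl | rfl | rfl | rfl | rfl | rfl | rfl | rfl | rfl | rfl | rfl <;>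
      exact ⟨by decide, by decide⟩

theorem card_Rot : Rot.card = 12 := by decide

/-- the number of frames with a given Gram matrix -/
theorem card_frames {M : M3} (h : Gd M) : Nat.card {A : M3 // A * NN * Aᵀ = M ∧ A.det = 1} = 12 := by
  obtain ⟨A0, h0, h1⟩ := exists_frame h
  have u3 : A0.adjugate * A0 = 1 := by
    rw [Matrix.adjugate_mul, h1, one_smul]
  have u4 : A0 * A0.adjugate = 1 := by
    rw [Matrix.mul_adjugate, h1, one_smul]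
  have u5 : A0ᵀ * (A0.adjugate)ᵀ = 1 := by
    rw [← Matrix.transpose_mul, u3, Matrix.transpose_one]
  have u6 : A0.adjugate.det = 1 := by
    rw [Matrix.det_adjugate, h1]
    norm_num
  have e : {A : M3 // A * NN * Aᵀ = M ∧ A.det = 1} ≃ Rot :=
    { toFun := fun A => ⟨A0.adjugate * A.1, (mem_Rot _).1 ⟨by
        rw [Matrix.transpose_mul]
        calc A0.adjugate * A.1 * NN * (A.1ᵀ * (A0.adjugate)ᵀ) =
            A0.adjugate * (A.1 * NN * A.1ᵀ) * (A0.adjugate)ᵀ := by simp only [Matrix.mul_assoc]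
          _ = A0.adjugate * (A0 * NN * A0ᵀ) * (A0.adjugate)ᵀ := by rw [A.2.1, h0]
          _ = (A0.adjugate * A0) * NN * (A0ᵀ * (A0.adjugate)ᵀ) := by simp only [Matrix.mul_assoc]
          _ = NN := by rw [u3, u5, Matrix.one_mul, Matrix.mul_one], by
        rw [Matrix.det_mul, u6, A.2.2]
        norm_num⟩⟩
      invFun := fun R => ⟨A0 * R.1, by
        have h2 := ((mem_Rot R.1).2 R.2).1
        rw [Matrix.transpose_mul]
        calc A0 * R.1 * NN * (R.1ᵀ * A0ᵀ) = A0 * (R.1 * NN * R.1ᵀ) * A0ᵀ := by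
              simp only [Matrix.mul_assoc]
          _ = M := by rw [h2, h0], by
        rw [Matrix.det_mul, h1, ((mem_Rot R.1).2 R.2).2]
        norm_num⟩
      left_inv := fun A => by
        apply Subtype.ext
        show A0 * (A0.adjugate * A.1) = A.1
        rw [← Matrix.mul_assoc, u4, Matrix.one_mul]
      right_inv := fun R => by
        apply Subtype.ext
        show A0.adjugate * (A0 * R.1) = R.1
        rw [← Matrix.mul_assoc, u3, Matrix.one_mul] }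
  rw [Nat.card_congr e, Nat.card_eq_fintype_card, Fintype.card_coe, card_Rot]

end Run7.h238.P21
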